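import Mathlib
import Pool.Agent.LqEmb.Interp

set_option autoImplicit false
set_option linter.unusedSectionVars false

/-!
The scalar interpolation inequality for the averaging operator, with an arbitrary exponent `r > 2`.
-/

namespace Pool.Agent.LqAll

open Finset Pool.Agent.LqEmb

section Variance

variable {G ι : Type} [AddCommGroup G] [Fintype G] [DecidableEq ι] [Fintype ι]

/-- The energy of all short moves. -/
noncomputable def shortE (e : ι → G) (φ : G → G → ℝ) : ℝ :=
  ((1 / 2 : ℝ) ^ (univ : Finset ι).card) *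
    ∑ B ∈ (univ : Finset ι).powerset, ∑ y, φ (y + ∑ c ∈ B, e c) y

theorem shortE_mono (e : ι → G) {φ ψ : G → G → ℝ} (h : ∀ x y, φ x y ≤ ψ x y) :
    shortE e φ ≤ shortE e ψ := by
  unfold shortE
  refine mul_le_mul_of_nonneg_left ?_ (by positivity)
  exact Finset.sum_le_sum fun B _ => Finset.sum_le_sum fun y _ => h _ _

theorem shortE_add (e : ι → G) (φ ψ : G → G → ℝ) :
    shortE e (fun x y => φ x y + ψ x y) = shortE e φ + shortE e ψ := by
  unfold shortE
  simp only [Finset.sum_add_distrib]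
  ring

theorem shortE_smul (e : ι → G) (a : ℝ) (φ : G → G → ℝ) :
    shortE e (fun x y => a * φ x y) = a * shortE e φ := by
  unfold shortE
  simp only [← Finset.mul_sum]
  ring

theorem half_pow_card : ((1 / 2 : ℝ) ^ (univ : Finset ι).card) *
    ((univ : Finset ι).powerset.card : ℝ) = 1 := by
  rw [card_powerset]
  push_cast
  rw [← mul_pow]
  norm_num

theorem shortE_right (e : ι → G) (f : G → ℝ) : shortE e (fun _ y => f y) = ∑ y, f y := by
  unfold shortE
  rw [Finset.sum_const, nsmul_eq_mul, ← mul_assoc, half_pow_card, one_mul]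

theorem shortE_left (e : ι → G) (f : G → ℝ) : shortE e (fun x _ => f x) = ∑ y, f y := by
  have h : shortE e (fun x _ => f x) = shortE e (fun _ y => f y) := by
    unfold shortE
    congr 1
    refine Finset.sum_congr rfl fun B _ => ?_
    exact Fintype.sum_equiv (Equiv.addRight (∑ c ∈ B, e c)) _ _ fun y => rfl
  rw [h, shortE_right]

theorem shortE_const_le (e : ι → G) {φ : G → G → ℝ} {C : ℝ}
    (h : ∀ y, ∀ B : Finset ι, φ (y + ∑ c ∈ B, e c) y ≤ C) :
    shortE e φ ≤ Fintype.card G * C := by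
  unfold shortE
  have h1 : ∑ B ∈ (univ : Finset ι).powerset, ∑ y, φ (y + ∑ c ∈ B, e c) y ≤
      ∑ _B ∈ (univ : Finset ι).powerset, ∑ _y : G, C :=
    Finset.sum_le_sum fun B _ => Finset.sum_le_sum fun y _ => h y B
  refine (mul_le_mul_of_nonneg_left h1 (by positivity)).trans (le_of_eq ?_)
  rw [Finset.sum_const, Finset.sum_const, nsmul_eq_mul, nsmul_eq_mul, ← mul_assoc,
    half_pow_card, one_mul]
  rfl

theorem nsq_sub_T_le (e : ι → G) (w : G → ℝ) :
    nsq w - nsq (T e w) ≤ shortE e (fun x y => (w x - w y) ^ 2) := by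
  set lam : ℝ := ((1 / 2 : ℝ) ^ (univ : Finset ι).card) with hlam
  have hT : ∀ y, T e w y = lam * ∑ B ∈ (univ : Finset ι).powerset, w (y + ∑ c ∈ B, e c) := by
    intro y
    unfold T avg
    rw [smul_eq_mul]
  have hpt : ∀ y, (T e w y) ^ 2 ≥ lam * ∑ B ∈ (univ : Finset ι).powerset,
      ((w (y + ∑ c ∈ B, e c)) ^ 2 - (w (y + ∑ c ∈ B, e c) - w y) ^ 2) := by
    intro y
    have h1 : lam * ∑ B ∈ (univ : Finset ι).powerset,
        ((w (y + ∑ c ∈ B, e c)) ^ 2 - (w (y + ∑ c ∈ B, e c) - w y) ^ 2) =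
        2 * w y * T e w y - (w y) ^ 2 := by
      have h2 : ∀ B : Finset ι, (w (y + ∑ c ∈ B, e c)) ^ 2 - (w (y + ∑ c ∈ B, e c) - w y) ^ 2 =
          2 * w y * w (y + ∑ c ∈ B, e c) - (w y) ^ 2 := fun B => by ring
      simp only [h2, Finset.sum_sub_distrib, ← Finset.mul_sum, Finset.sum_const, nsmul_eq_mul]
      have hc : lam * ((univ : Finset ι).powerset.card : ℝ) = 1 := half_pow_card
      rw [hT y]
      linear_combination (-(w y) ^ 2) * hc
    rw [h1]
    nlinarith [sq_nonneg (T e w y - w y)]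
  have h3 : nsq (T e w) ≥ ∑ y, lam * ∑ B ∈ (univ : Finset ι).powerset,
      ((w (y + ∑ c ∈ B, e c)) ^ 2 - (w (y + ∑ c ∈ B, e c) - w y) ^ 2) :=
    Finset.sum_le_sum fun y _ => hpt y
  have h4 : ∑ y, lam * ∑ B ∈ (univ : Finset ι).powerset,
      ((w (y + ∑ c ∈ B, e c)) ^ 2 - (w (y + ∑ c ∈ B, e c) - w y) ^ 2) =
      shortE e (fun x _ => (w x) ^ 2) - shortE e (fun x y => (w x - w y) ^ 2) := by
    unfold shortE
    rw [← Finset.mul_sum, Finset.sum_comm, ← mul_sub, ← Finset.sum_sub_distrib]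
    congr 1
    refine Finset.sum_congr rfl fun B _ => ?_
    rw [← Finset.sum_sub_distrib]
  rw [h4, shortE_left] at h3
  have h5 : nsq w = ∑ y, (w y) ^ 2 := rfl
  linarith

theorem step' (e : ι → G) (k : ℕ) (w : G → ℝ) :
    ∑ c, nsq (dif (k • e c) (T e w)) ≤
      4 * (k : ℝ) ^ 2 * shortE e (fun x y => (w x - w y) ^ 2) := by
  refine (step e k w).trans ?_
  exact mul_le_mul_of_nonneg_left (nsq_sub_T_le e w) (by positivity)

theorem trunc' (e : ι → G) (k : ℕ) (w : G → ℝ) (t : ℝ) (ht : 0 ≤ t) :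
    ∑ c, ∑ y, (max (|dif (k • e c) (T e w) y| - 2 * t) 0) ^ 2 ≤
      4 * (k : ℝ) ^ 2 * shortE e (fun x y => (soft t (w x) - soft t (w y)) ^ 2) := by
  set h : G → ℝ := fun y => soft t (w y) with hh
  set g : G → ℝ := fun y => w y - soft t (w y) with hg
  have hw : w = fun y => g y + h y := by
    funext y; simp [hh, hg]
  refine le_trans ?_ (step' e k h)
  refine Finset.sum_le_sum fun c _ => ?_
  unfold nsq
  refine Finset.sum_le_sum fun y _ => ?_
  have h3 : dif (k • e c) (T e w) y = dif (k • e c) (T e g) y + dif (k • e c) (T e h) y := by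
    conv_lhs => rw [hw]
    rw [T_add]
    unfold dif
    ring
  have h4 : |dif (k • e c) (T e g) y| ≤ 2 * t := by
    have hgb : ∀ y, |g y| ≤ t := fun y => sub_soft_abs t (w y) ht
    have h5 := abs_le.1 (avg_abs_le e univ g t hgb y)
    have h6 := abs_le.1 (avg_abs_le e univ g t hgb (y + k • e c))
    unfold dif T
    rw [abs_le]
    constructor <;> linarith [h5.1, h5.2, h6.1, h6.2]
  have h7 : |dif (k • e c) (T e w) y| - 2 * t ≤ |dif (k • e c) (T e h) y| := by
    rw [h3]
    have := abs_add_le (dif (k • e c) (T e g) y) (dif (k • e c) (T e h) y)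
    linarith
  rw [← sq_abs (dif (k • e c) (T e h) y)]
  refine pow_le_pow_left₀ (le_max_right _ _) ?_ 2
  exact max_le h7 (abs_nonneg _)

end Variance

section Soft

theorem soft_eq_zero {t x : ℝ} (h : |x| ≤ t) : soft t x = 0 := by
  have := abs_le.1 h
  unfold soft
  rw [max_eq_right (by linarith), max_eq_right (by linarith), sub_zero]

theorem soft_mono {t a b : ℝ} (ht : 0 ≤ t) (hab : a ≤ b) :
    0 ≤ soft t b - soft t a ∧ soft t b - soft t a ≤ b - a := by
  unfold soft
  rcases le_total (b - t) 0 with h1 | h1 <;> rcases le_total (-b - t) 0 with h2 | h2 <;>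
  rcases le_total (a - t) 0 with h3 | h3 <;> rcases le_total (-a - t) 0 with h4 | h4 <;>
  simp only [max_eq_left, max_eq_right, h1, h2, h3, h4] <;> constructor <;> linarith

theorem soft_diff_sq {t : ℝ} (ht : 0 ≤ t) (a b : ℝ) :
    (soft t a - soft t b) ^ 2 ≤ (a - b) ^ 2 := by
  rcases le_total a b with h | h
  · have := soft_mono ht h
    nlinarith
  · have := soft_mono ht h
    nlinarith

end Soft

end Pool.Agent.LqAll
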