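import Mathlib
import Pool.Agent.LqAll.Scalar

set_option autoImplicit false
set_option linter.unusedSectionVars false

/-!
The scalar interpolation inequality, part two: integration over the levels.
-/

namespace Pool.Agent.LqAll

open Finset Pool.Agent.LqEmb MeasureTheory

variable {r : ℝ}

theorem ii_mul (hr : 2 < r) {f : ℝ → ℝ} (hf : Continuous f) (a b : ℝ) :
    IntervalIntegrable (fun t => t ^ (r - 3) * f t) volume a b :=
  (intervalIntegral.intervalIntegrable_rpow' (by linarith)).mul_continuousOn hf.continuousOn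

theorem int_power (hr : 2 < r) (a : ℝ) :
    ∫ t in (0 : ℝ)..a, t ^ (r - 3) = a ^ (r - 2) / (r - 2) := by
  rw [integral_rpow (Or.inl (by linarith)), show r - 3 + 1 = r - 2 by ring,
    Real.zero_rpow (by linarith), sub_zero]

theorem continuous_soft (x : ℝ) : Continuous fun t => soft t x := by
  unfold soft
  fun_prop

theorem int_max (hr : 2 < r) {h : ℝ} (hh : 0 ≤ h) :
    ∫ t in (0 : ℝ)..h, t ^ (r - 3) * (2 * h - 2 * t) ^ 2 =
      8 / ((r - 2) * (r - 1) * r) * h ^ r := by
  rcases eq_or_lt_of_le hh with h0 | hpos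
  · rw [← h0, intervalIntegral.integral_same, Real.zero_rpow (by linarith), mul_zero]
  have h1 : ∫ t in (0 : ℝ)..h, t ^ (r - 3) * (2 * h - 2 * t) ^ 2 =
      ∫ t in (0 : ℝ)..h, (4 * h ^ 2 * t ^ (r - 3) - 8 * h * t ^ (r - 2) + 4 * t ^ (r - 1)) := by
    rw [intervalIntegral.integral_of_le hh, intervalIntegral.integral_of_le hh]
    refine setIntegral_congr_fun measurableSet_Ioc fun t ht => ?_
    have ht0 : 0 < t := ht.1
    have e1 : t ^ (r - 2) = t ^ (r - 3) * t := by
      rw [show r - 2 = (r - 3) + 1 by ring, Real.rpow_add_one ht0.ne']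
    have e2 : t ^ (r - 1) = t ^ (r - 3) * t * t := by
      rw [show r - 1 = (r - 3) + 1 + 1 by ring, Real.rpow_add_one ht0.ne',
        Real.rpow_add_one ht0.ne']
    simp only [e1, e2]
    ring
  have i1 : IntervalIntegrable (fun t : ℝ => 4 * h ^ 2 * t ^ (r - 3)) volume 0 h :=
    (intervalIntegral.intervalIntegrable_rpow' (by linarith)).const_mul _
  have i2 : IntervalIntegrable (fun t : ℝ => 8 * h * t ^ (r - 2)) volume 0 h :=
    (intervalIntegral.intervalIntegrable_rpow' (by linarith)).const_mul _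
  have i3 : IntervalIntegrable (fun t : ℝ => 4 * t ^ (r - 1)) volume 0 h :=
    (intervalIntegral.intervalIntegrable_rpow' (by linarith)).const_mul _
  rw [h1, intervalIntegral.integral_add (i1.sub i2) i3, intervalIntegral.integral_sub i1 i2,
    intervalIntegral.integral_const_mul, intervalIntegral.integral_const_mul,
    intervalIntegral.integral_const_mul, integral_rpow (Or.inl (by linarith)),
    integral_rpow (Or.inl (by linarith)), integral_rpow (Or.inl (by linarith)),
    Real.zero_rpow (by linarith), Real.zero_rpow (by linarith), Real.zero_rpow (by linarith)]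
  have f1 : h ^ (r - 3 + 1) * h ^ 2 = h ^ r := by
    rw [← Real.rpow_natCast, ← Real.rpow_add hpos]; congr 1; push_cast; ring
  have f2 : h ^ (r - 2 + 1) * h = h ^ r := by
    rw [← Real.rpow_add_one hpos.ne']; congr 1; ring
  have f3 : h ^ (r - 1 + 1) = h ^ r := by congr 1; ring
  have g1 : h ^ (r - 3 + 1) = h ^ r / h ^ 2 := by
    rw [← f1]; field_simp
  have g2 : h ^ (r - 2 + 1) = h ^ r / h := by
    rw [← f2]; field_simp
  rw [f3, g1, g2]
  have n1 : r - 2 ≠ 0 := by linarith
  have n2 : r - 1 ≠ 0 := by linarith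
  have n3 : r ≠ 0 := by linarith
  have n4 : r - 3 + 1 ≠ 0 := by linarith
  have n5 : r - 2 + 1 ≠ 0 := by linarith
  have n6 : r - 1 + 1 ≠ 0 := by linarith
  rw [show r - 3 + 1 = r - 2 by ring, show r - 2 + 1 = r - 1 by ring,
    show r - 1 + 1 = r by ring]
  field_simp
  ring

theorem int_max_ge (hr : 2 < r) {A S : ℝ} (hA : 0 ≤ A) (hAS : A ≤ S) :
    8 / ((r - 2) * (r - 1) * r) * (A / 2) ^ r ≤
      ∫ t in (0 : ℝ)..S, t ^ (r - 3) * (max (A - 2 * t) 0) ^ 2 := by
  have hc : Continuous fun t : ℝ => (max (A - 2 * t) 0) ^ 2 := by fun_prop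
  rw [← intervalIntegral.integral_add_adjacent_intervals (ii_mul hr hc 0 (A / 2))
    (ii_mul hr hc (A / 2) S), ← int_max hr (by linarith : 0 ≤ A / 2)]
  have h1 : ∫ t in (0 : ℝ)..(A / 2), t ^ (r - 3) * (max (A - 2 * t) 0) ^ 2 =
      ∫ t in (0 : ℝ)..(A / 2), t ^ (r - 3) * (2 * (A / 2) - 2 * t) ^ 2 := by
    refine intervalIntegral.integral_congr fun t ht => ?_
    rw [Set.uIcc_of_le (by linarith)] at ht
    have : max (A - 2 * t) 0 = 2 * (A / 2) - 2 * t := by
      rw [max_eq_left (by linarith [ht.2])]; ring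
    simp only [this]
  rw [h1]
  have h2 : 0 ≤ ∫ t in (A / 2)..S, t ^ (r - 3) * (max (A - 2 * t) 0) ^ 2 := by
    refine intervalIntegral.integral_nonneg (by linarith) fun t ht => ?_
    have : 0 ≤ t := le_trans (by linarith) ht.1
    positivity
  linarith

theorem int_soft_le (hr : 2 < r) {a b S : ℝ} (hS : max |a| |b| ≤ S) :
    ∫ t in (0 : ℝ)..S, t ^ (r - 3) * (soft t a - soft t b) ^ 2 ≤
      (a - b) ^ 2 * (max |a| |b|) ^ (r - 2) / (r - 2) := by
  set g : ℝ := max |a| |b| with hg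
  have hg0 : 0 ≤ g := le_trans (abs_nonneg a) (le_max_left _ _)
  have hc : Continuous fun t : ℝ => (soft t a - soft t b) ^ 2 :=
    ((continuous_soft a).sub (continuous_soft b)).pow 2
  rw [← intervalIntegral.integral_add_adjacent_intervals (ii_mul hr hc 0 g) (ii_mul hr hc g S)]
  have h1 : ∫ t in (0 : ℝ)..g, t ^ (r - 3) * (soft t a - soft t b) ^ 2 ≤
      ∫ t in (0 : ℝ)..g, t ^ (r - 3) * (a - b) ^ 2 := by
    refine intervalIntegral.integral_mono_on hg0 (ii_mul hr hc 0 g)
      (ii_mul hr continuous_const 0 g) fun t ht => ?_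
    exact mul_le_mul_of_nonneg_left (soft_diff_sq ht.1 a b) (Real.rpow_nonneg ht.1 _)
  have h2 : ∫ t in g..S, t ^ (r - 3) * (soft t a - soft t b) ^ 2 = 0 := by
    have h3 : ∫ t in g..S, t ^ (r - 3) * (soft t a - soft t b) ^ 2 = ∫ _t in g..S, (0 : ℝ) := by
      refine intervalIntegral.integral_congr fun t ht => ?_
      rw [Set.uIcc_of_le hS] at ht
      have e1 : soft t a = 0 := soft_eq_zero ((le_max_left _ _).trans ht.1)
      have e2 : soft t b = 0 := soft_eq_zero ((le_max_right _ _).trans ht.1)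
      simp [e1, e2]
    rw [h3, intervalIntegral.integral_zero]
  rw [intervalIntegral.integral_mul_const, int_power hr g] at h1
  rw [h2, add_zero]
  refine h1.trans (le_of_eq ?_)
  ring

variable {G ι : Type} [AddCommGroup G] [Fintype G] [DecidableEq ι] [Fintype ι]

/-- the constant of the interpolation inequality -/
noncomputable def Ar (r : ℝ) : ℝ := 2 ^ r * (r * (r - 1) / 2)

theorem Ar_pos (hr : 2 < r) : 0 < Ar r := by
  unfold Ar
  have h1 : 0 < r * (r - 1) / 2 := by
    have : 0 < r * (r - 1) := mul_pos (by linarith) (by linarith)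
    linarith
  have h2 : (0 : ℝ) < 2 ^ r := Real.rpow_pos_of_pos two_pos r
  positivity

theorem int_shortE (e : ι → G) (S : ℝ) (φ : ℝ → G → G → ℝ)
    (hφ : ∀ x y, IntervalIntegrable (fun t => φ t x y) volume 0 S) :
    ∫ t in (0 : ℝ)..S, shortE e (φ t) = shortE e (fun x y => ∫ t in (0 : ℝ)..S, φ t x y) := by
  unfold shortE
  rw [intervalIntegral.integral_const_mul, intervalIntegral.integral_finsetSum]
  · congr 1
    refine Finset.sum_congr rfl fun B _ => ?_
    rw [intervalIntegral.integral_finsetSum]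
    intro y _
    exact hφ _ _
  · intro B _
    have := IntervalIntegrable.sum (univ : Finset G)
      (f := fun y t => φ t (y + ∑ c ∈ B, e c) y) (fun y _ => hφ _ _)
    simpa [Finset.sum_fn] using this

theorem ii_shortE (e : ι → G) (S : ℝ) (φ : ℝ → G → G → ℝ)
    (hφ : ∀ x y, IntervalIntegrable (fun t => φ t x y) volume 0 S) :
    IntervalIntegrable (fun t => shortE e (φ t)) volume 0 S := by
  unfold shortE
  refine IntervalIntegrable.const_mul ?_ _
  have h1 : ∀ B ∈ (univ : Finset ι).powerset, IntervalIntegrable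
      (fun t => ∑ y, φ t (y + ∑ c ∈ B, e c) y) volume 0 S := by
    intro B _
    have := IntervalIntegrable.sum (univ : Finset G)
      (f := fun y t => φ t (y + ∑ c ∈ B, e c) y) (fun y _ => hφ _ _)
    simpa [Finset.sum_fn] using this
  have := IntervalIntegrable.sum (univ : Finset ι).powerset
      (f := fun B t => ∑ y, φ t (y + ∑ c ∈ B, e c) y) h1
  simpa [Finset.sum_fn] using this

/-- The scalar inequality. -/
theorem scalar_bound (hr : 2 < r) (e : ι → G) (k : ℕ) (w : G → ℝ) :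
    ∑ c, ∑ y, |dif (k • e c) (T e w) y| ^ r ≤
      Ar r * (k : ℝ) ^ 2 *
        shortE e (fun x y => (w x - w y) ^ 2 * (max |w x| |w y|) ^ (r - 2)) := by
  obtain ⟨S, hS0, hS1, hS2⟩ : ∃ S : ℝ, 0 ≤ S ∧ (∀ c y, |dif (k • e c) (T e w) y| ≤ S) ∧
      ∀ y, |w y| ≤ S := by
    refine ⟨(∑ c, ∑ y, |dif (k • e c) (T e w) y|) + ∑ y, |w y|, ?_, ?_, ?_⟩
    · positivity
    · intro c y
      have h1 : |dif (k • e c) (T e w) y| ≤ ∑ y, |dif (k • e c) (T e w) y| :=
        Finset.single_le_sum (f := fun y => |dif (k • e c) (T e w) y|)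
          (fun y _ => abs_nonneg _) (mem_univ y)
      have h2 : (∑ y, |dif (k • e c) (T e w) y|) ≤ ∑ c, ∑ y, |dif (k • e c) (T e w) y| :=
        Finset.single_le_sum (f := fun c => ∑ y, |dif (k • e c) (T e w) y|)
          (fun c _ => Finset.sum_nonneg fun y _ => abs_nonneg _) (mem_univ c)
      have h3 : (0 : ℝ) ≤ ∑ y, |w y| := by positivity
      linarith
    · intro y
      have h1 : |w y| ≤ ∑ y, |w y| :=
        Finset.single_le_sum (f := fun y => |w y|) (fun y _ => abs_nonneg _) (mem_univ y)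
      have h3 : (0 : ℝ) ≤ ∑ c, ∑ y, |dif (k • e c) (T e w) y| := by positivity
      linarith
  set q : ℝ := 8 / ((r - 2) * (r - 1) * r) with hq
  have hcL : ∀ c y, Continuous fun t : ℝ => (max (|dif (k • e c) (T e w) y| - 2 * t) 0) ^ 2 := by
    intro c y; fun_prop
  have hiL : ∀ c y, IntervalIntegrable (fun t : ℝ => t ^ (r - 3) *
      (max (|dif (k • e c) (T e w) y| - 2 * t) 0) ^ 2) volume 0 S := fun c y =>
    ii_mul hr (hcL c y) 0 S
  have hiLc : ∀ c, IntervalIntegrable (fun t : ℝ => ∑ y, t ^ (r - 3) *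
      (max (|dif (k • e c) (T e w) y| - 2 * t) 0) ^ 2) volume 0 S := by
    intro c
    have := IntervalIntegrable.sum (univ : Finset G)
      (f := fun y t => t ^ (r - 3) * (max (|dif (k • e c) (T e w) y| - 2 * t) 0) ^ 2)
      (fun y _ => hiL c y)
    simpa [Finset.sum_fn] using this
  have hiLL : IntervalIntegrable (fun t : ℝ => ∑ c, ∑ y, t ^ (r - 3) *
      (max (|dif (k • e c) (T e w) y| - 2 * t) 0) ^ 2) volume 0 S := by
    have := IntervalIntegrable.sum (univ : Finset ι)
      (f := fun c t => ∑ y, t ^ (r - 3) * (max (|dif (k • e c) (T e w) y| - 2 * t) 0) ^ 2)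
      (fun c _ => hiLc c)
    simpa [Finset.sum_fn] using this
  have hL : ∑ c, ∑ y, q * (|dif (k • e c) (T e w) y| / 2) ^ r ≤
      ∫ t in (0 : ℝ)..S, ∑ c, ∑ y, t ^ (r - 3) *
        (max (|dif (k • e c) (T e w) y| - 2 * t) 0) ^ 2 := by
    rw [intervalIntegral.integral_finsetSum (fun c _ => hiLc c)]
    refine Finset.sum_le_sum fun c _ => ?_
    rw [intervalIntegral.integral_finsetSum (fun y _ => hiL c y)]
    refine Finset.sum_le_sum fun y _ => ?_
    exact int_max_ge hr (abs_nonneg _) (hS1 c y)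
  have hcR : ∀ x y : G, Continuous fun t : ℝ => (soft t (w x) - soft t (w y)) ^ 2 := fun x y =>
    ((continuous_soft _).sub (continuous_soft _)).pow 2
  have hR : ∫ t in (0 : ℝ)..S, (4 * (k : ℝ) ^ 2) *
      shortE e (fun x y => t ^ (r - 3) * (soft t (w x) - soft t (w y)) ^ 2) ≤
      (4 * (k : ℝ) ^ 2) * shortE e
        (fun x y => (1 / (r - 2)) * ((w x - w y) ^ 2 * (max |w x| |w y|) ^ (r - 2))) := by
    rw [intervalIntegral.integral_const_mul, int_shortE e S _ (fun x y => ii_mul hr (hcR x y) 0 S)]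
    refine mul_le_mul_of_nonneg_left ?_ (by positivity)
    refine shortE_mono e fun x y => ?_
    refine (int_soft_le hr (max_le (hS2 x) (hS2 y))).trans (le_of_eq ?_)
    ring
  have hmono : ∫ t in (0 : ℝ)..S, ∑ c, ∑ y, t ^ (r - 3) *
        (max (|dif (k • e c) (T e w) y| - 2 * t) 0) ^ 2 ≤
      ∫ t in (0 : ℝ)..S, (4 * (k : ℝ) ^ 2) *
        shortE e (fun x y => t ^ (r - 3) * (soft t (w x) - soft t (w y)) ^ 2) := by
    refine intervalIntegral.integral_mono_on hS0 hiLL ?_ ?_
    · exact (ii_shortE e S _ (fun x y => ii_mul hr (hcR x y) 0 S)).const_mul _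
    · intro t ht
      have h1 := mul_le_mul_of_nonneg_left (trunc' e k w t ht.1) (Real.rpow_nonneg ht.1 (r - 3))
      rw [shortE_smul]
      simp only [← Finset.mul_sum]
      refine h1.trans (le_of_eq ?_)
      ring
  have hfin := hL.trans (hmono.trans hR)
  rw [shortE_smul] at hfin
  have h2r : (0 : ℝ) < 2 ^ r := Real.rpow_pos_of_pos two_pos r
  have hdiv : ∀ A : ℝ, 0 ≤ A → (A / 2) ^ r = A ^ r / 2 ^ r := fun A hA =>
    Real.div_rpow hA zero_le_two r
  have hsum : ∑ c, ∑ y, q * (|dif (k • e c) (T e w) y| / 2) ^ r =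
      q / 2 ^ r * ∑ c, ∑ y, |dif (k • e c) (T e w) y| ^ r := by
    simp only [Finset.mul_sum]
    refine Finset.sum_congr rfl fun c _ => Finset.sum_congr rfl fun y _ => ?_
    rw [hdiv _ (abs_nonneg _)]
    ring
  rw [hsum] at hfin
  have n1 : 0 < r - 2 := by linarith
  have n2 : 0 < r - 1 := by linarith
  have n3 : 0 < r := by linarith
  set X := ∑ c, ∑ y, |dif (k • e c) (T e w) y| ^ r with hX
  set Y := shortE e (fun x y => (w x - w y) ^ 2 * (max |w x| |w y|) ^ (r - 2)) with hY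
  have hqp : 0 < q / 2 ^ r := by
    rw [hq]; positivity
  have h5 : X ≤ (4 * (k : ℝ) ^ 2 * (1 / (r - 2) * Y)) / (q / 2 ^ r) := by
    rw [le_div_iff₀ hqp]
    linarith
  refine h5.trans (le_of_eq ?_)
  rw [hq]
  unfold Ar
  field_simp
  ring

/-- Young's inequality in the form needed. -/
theorem young (hr : 2 < r) {s g η : ℝ} (hs : 0 ≤ s) (hg : 0 ≤ g) (hη : 0 < η) :
    s ^ 2 * g ^ (r - 2) ≤ η ^ (2 - r) * s ^ r + η ^ 2 * g ^ r := by
  have hr0 : 0 ≤ r - 2 := by linarith
  have e1 : ∀ x : ℝ, 0 ≤ x → x ^ 2 * x ^ (r - 2) = x ^ r := by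
    intro x hx
    have h1 : x ^ 2 = x ^ (2 : ℝ) := by
      rw [show (2 : ℝ) = ((2 : ℕ) : ℝ) by norm_num, Real.rpow_natCast]
    rw [h1, ← Real.rpow_add_of_nonneg hx (by norm_num) hr0]
    congr 1; ring
  rcases le_total (η * g) s with h | h
  · have h1 : g ≤ s / η := by rw [le_div_iff₀ hη]; linarith
    have h2 : g ^ (r - 2) ≤ (s / η) ^ (r - 2) := Real.rpow_le_rpow hg h1 hr0
    have h3 : (s / η) ^ (r - 2) = s ^ (r - 2) * η ^ (2 - r) := by
      rw [Real.div_rpow hs hη.le, show 2 - r = -(r - 2) by ring, Real.rpow_neg hη.le]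
      rfl
    have h4 : 0 ≤ η ^ 2 * g ^ r := by positivity
    calc s ^ 2 * g ^ (r - 2) ≤ s ^ 2 * (s ^ (r - 2) * η ^ (2 - r)) := by
          rw [← h3]; exact mul_le_mul_of_nonneg_left h2 (sq_nonneg _)
      _ = η ^ (2 - r) * s ^ r := by rw [← e1 s hs]; ring
      _ ≤ _ := by linarith
  · have h1 : s ^ 2 ≤ η ^ 2 * g ^ 2 := by
      rw [← mul_pow]; exact pow_le_pow_left₀ hs h 2
    have h2 : 0 ≤ η ^ (2 - r) * s ^ r :=
      mul_nonneg (Real.rpow_nonneg hη.le _) (Real.rpow_nonneg hs _)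
    calc s ^ 2 * g ^ (r - 2) ≤ η ^ 2 * g ^ 2 * g ^ (r - 2) :=
          mul_le_mul_of_nonneg_right h1 (Real.rpow_nonneg hg _)
      _ = η ^ 2 * g ^ r := by rw [← e1 g hg]; ring
      _ ≤ _ := by linarith

/-- The scalar inequality in additive form. -/
theorem scalar_bound' (hr : 2 < r) (e : ι → G) (k : ℕ) (w : G → ℝ) {η : ℝ} (hη : 0 < η) :
    ∑ c, ∑ y, |T e w (y + k • e c) - T e w y| ^ r ≤
      Ar r * (k : ℝ) ^ 2 * (η ^ (2 - r) * shortE e (fun x y => |w x - w y| ^ r) +
        η ^ 2 * (2 * ∑ y, |w y| ^ r)) := by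
  have h1 := scalar_bound hr e k w
  refine h1.trans ?_
  refine mul_le_mul_of_nonneg_left ?_ (by have := Ar_pos hr; positivity)
  have h2 : shortE e (fun x y => (w x - w y) ^ 2 * (max |w x| |w y|) ^ (r - 2)) ≤
      shortE e (fun x y => η ^ (2 - r) * |w x - w y| ^ r + η ^ 2 * (|w x| ^ r + |w y| ^ r)) := by
    refine shortE_mono e fun x y => ?_
    have h3 := young hr (abs_nonneg (w x - w y)) (le_trans (abs_nonneg (w x)) (le_max_left _ |w y|))
      hη
    rw [sq_abs] at h3
    refine h3.trans ?_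
    have h4 : (max |w x| |w y|) ^ r ≤ |w x| ^ r + |w y| ^ r := by
      have p1 : 0 ≤ |w x| ^ r := Real.rpow_nonneg (abs_nonneg _) _
      have p2 : 0 ≤ |w y| ^ r := Real.rpow_nonneg (abs_nonneg _) _
      rcases le_total |w x| |w y| with h | h
      · rw [max_eq_right h]; linarith
      · rw [max_eq_left h]; linarith
    have h5 := mul_le_mul_of_nonneg_left h4 (sq_nonneg η)
    linarith
  refine h2.trans (le_of_eq ?_)
  rw [shortE_add, shortE_smul, shortE_smul, shortE_add, shortE_left, shortE_right]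
  ring

end Pool.Agent.LqAll
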