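import Mathlib
import Pool.Agent.LqAll.Interp
import Pool.Agent.LqEmb.Vec

set_option autoImplicit false
set_option linter.unusedSectionVars false

/-!
The vector valued (`ℓ_p`-valued) form of the interpolation inequality.
-/

namespace Pool.Agent.LqAll

open Finset Pool.Agent.LqEmb

/-- real `ℓ_p` -/
abbrev Lr (p : ENNReal) : Type := lp (fun _ : ℕ => ℝ) p

variable {p : ENNReal} [Fact (1 ≤ p)]

theorem hasSum_r (hr : 2 < p.toReal) (v : Lr p) :
    HasSum (fun i => |v i| ^ p.toReal) (‖v‖ ^ p.toReal) := by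
  have h := lp.hasSum_norm (p := p) (by linarith) v
  simpa [Real.norm_eq_abs] using h

variable {G ι : Type} [AddCommGroup G] [Fintype G] [DecidableEq ι] [Fintype ι]

theorem T_coord' (e : ι → G) (w : G → Lr p) (i : ℕ) (y : G) :
    (T e w y) i = T e (fun y => w y i) y := by
  unfold T avg
  rw [lp.coeFn_smul, Pi.smul_apply, lp.coeFn_sum, Finset.sum_apply]

theorem hasSum_shortE (e : ι → G) (φ : ℕ → G → G → ℝ) (ψ : G → G → ℝ)
    (h : ∀ x y, HasSum (fun i => φ i x y) (ψ x y)) :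
    HasSum (fun i => shortE e (φ i)) (shortE e ψ) := by
  unfold shortE
  refine HasSum.mul_left _ ?_
  exact hasSum_sum fun B _ => hasSum_sum fun y _ => h _ _

theorem vec_bound (hr : 2 < p.toReal) (e : ι → G) (k : ℕ) (w : G → Lr p) {η : ℝ} (hη : 0 < η) :
    ∑ c, ∑ y, ‖T e w (y + k • e c) - T e w y‖ ^ p.toReal ≤
      Ar p.toReal * (k : ℝ) ^ 2 * (η ^ (2 - p.toReal) *
        shortE e (fun x y => ‖w x - w y‖ ^ p.toReal) +
        η ^ 2 * (2 * ∑ y, ‖w y‖ ^ p.toReal)) := by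
  have h1 : HasSum (fun i => ∑ c, ∑ y, |(T e w (y + k • e c) - T e w y) i| ^ p.toReal)
      (∑ c, ∑ y, ‖T e w (y + k • e c) - T e w y‖ ^ p.toReal) :=
    hasSum_sum fun c _ => hasSum_sum fun y _ => hasSum_r hr _
  have h2 : HasSum (fun i => Ar p.toReal * (k : ℝ) ^ 2 * (η ^ (2 - p.toReal) *
        shortE e (fun x y => |(w x - w y) i| ^ p.toReal) +
        η ^ 2 * (2 * ∑ y, |(w y) i| ^ p.toReal)))
      (Ar p.toReal * (k : ℝ) ^ 2 * (η ^ (2 - p.toReal) *
        shortE e (fun x y => ‖w x - w y‖ ^ p.toReal) +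
        η ^ 2 * (2 * ∑ y, ‖w y‖ ^ p.toReal))) := by
    refine HasSum.mul_left _ (HasSum.add (HasSum.mul_left _ ?_) (HasSum.mul_left _
      (HasSum.mul_left _ ?_)))
    · exact hasSum_shortE e _ _ fun x y => hasSum_r hr _
    · exact hasSum_sum fun y _ => hasSum_r hr _
  refine hasSum_le (fun i => ?_) h1 h2
  have h3 := scalar_bound' hr e k (fun y => w y i) hη
  refine le_trans (le_of_eq ?_) (h3.trans (le_of_eq ?_))
  · refine Finset.sum_congr rfl fun c _ => Finset.sum_congr rfl fun y _ => ?_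
    rw [lp.coeFn_sub, Pi.sub_apply, T_coord', T_coord']
  · simp only [lp.coeFn_sub, Pi.sub_apply]

/-- The finite inequality. -/
theorem fin_ineq' [Nonempty ι] (hr : 2 < p.toReal) (e : ι → G) (k : ℕ) (u : G → Lr p) (v : Lr p)
    (C D η : ℝ) (hC : 0 < C) (hη : 0 < η)
    (h1 : ∀ y, ∀ B : Finset ι, ‖u (y + ∑ c ∈ B, e c) - u y‖ ≤ C)
    (h2 : ∀ y, ‖u y - v‖ ^ p.toReal ≤ D)
    (hQ : Ar p.toReal * (k : ℝ) ^ 2 * (η ^ (2 - p.toReal) * C ^ p.toReal + η ^ 2 * (2 * D)) ≤
      Fintype.card ι * C ^ p.toReal) :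
    ∃ (y : G) (c : ι), ‖u (y + k • e c) - u y‖ ≤ 3 * C := by
  set r := p.toReal with hrdef
  have hr0 : 0 < r := by linarith
  set w : G → Lr p := fun y => u y - v with hw
  have hTw : ∀ y, T e w y = T e u y - v := by
    intro y
    have := congrFun (T_sub e u (fun _ => v)) y
    rw [T_const] at this
    exact this
  have hdiff : ∀ y c, T e w (y + k • e c) - T e w y = T e u (y + k • e c) - T e u y := by
    intro y c
    rw [hTw, hTw]; abel
  have hb := vec_bound hr e k w hη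
  have hs : shortE e (fun x y => ‖w x - w y‖ ^ r) ≤ Fintype.card G * C ^ r := by
    refine shortE_const_le e fun y B => ?_
    refine Real.rpow_le_rpow (norm_nonneg _) ?_ hr0.le
    have : w (y + ∑ c ∈ B, e c) - w y = u (y + ∑ c ∈ B, e c) - u y := by
      simp only [hw]; abel
    rw [this]
    exact h1 y B
  have hd : ∑ y, ‖w y‖ ^ r ≤ Fintype.card G * D := by
    have : ∑ y, ‖w y‖ ^ r ≤ ∑ _y : G, D := Finset.sum_le_sum fun y _ => h2 y
    refine this.trans (le_of_eq ?_)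
    rw [Finset.sum_const, card_univ, nsmul_eq_mul]
  have hA := Ar_pos hr
  have hηr : 0 ≤ η ^ (2 - r) := Real.rpow_nonneg hη.le _
  have hG : (0 : ℝ) < Fintype.card G := by
    exact_mod_cast Fintype.card_pos_iff.2 ⟨(0 : G)⟩
  have htot : ∑ c, ∑ y, ‖T e u (y + k • e c) - T e u y‖ ^ r ≤
      Fintype.card G * (Fintype.card ι * C ^ r) := by
    have e1 : ∑ c, ∑ y, ‖T e u (y + k • e c) - T e u y‖ ^ r =
        ∑ c, ∑ y, ‖T e w (y + k • e c) - T e w y‖ ^ r := by
      refine Finset.sum_congr rfl fun c _ => Finset.sum_congr rfl fun y _ => ?_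
      rw [hdiff]
    rw [e1]
    refine hb.trans ?_
    have e2 : Ar r * (k : ℝ) ^ 2 * (η ^ (2 - r) * shortE e (fun x y => ‖w x - w y‖ ^ r) +
        η ^ 2 * (2 * ∑ y, ‖w y‖ ^ r)) ≤
        Ar r * (k : ℝ) ^ 2 * (η ^ (2 - r) * (Fintype.card G * C ^ r) +
        η ^ 2 * (2 * (Fintype.card G * D))) := by
      refine mul_le_mul_of_nonneg_left ?_ (by positivity)
      refine add_le_add (mul_le_mul_of_nonneg_left hs hηr) ?_
      refine mul_le_mul_of_nonneg_left ?_ (sq_nonneg _)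
      linarith
    refine e2.trans ?_
    have e3 := mul_le_mul_of_nonneg_left hQ hG.le
    refine le_trans (le_of_eq ?_) e3
    ring
  -- a good pair
  have hgood : ∃ (c : ι) (y : G), ‖T e u (y + k • e c) - T e u y‖ ^ r ≤ C ^ r := by
    by_contra hcon
    push Not at hcon
    have hlt : ∑ _c : ι, ∑ _y : G, C ^ r < ∑ c : ι, ∑ y : G, ‖T e u (y + k • e c) - T e u y‖ ^ r := by
      refine Finset.sum_lt_sum_of_nonempty univ_nonempty fun c _ => ?_
      exact Finset.sum_lt_sum_of_nonempty ⟨0, mem_univ _⟩ fun y _ => hcon c y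
    have e4 : ∑ _c : ι, ∑ _y : G, C ^ r = Fintype.card G * (Fintype.card ι * C ^ r) := by
      simp only [Finset.sum_const, card_univ, nsmul_eq_mul]
      ring
    rw [e4] at hlt
    exact absurd htot (not_le.2 hlt)
  obtain ⟨c, y, hcy⟩ := hgood
  refine ⟨y, c, ?_⟩
  have h3 : ‖T e u (y + k • e c) - T e u y‖ ≤ C :=
    (Real.rpow_le_rpow_iff (norm_nonneg _) hC.le hr0).1 hcy
  have h4 := T_sub_le e u C h1 y
  have h5 := T_sub_le e u C h1 (y + k • e c)
  have h6 : u (y + k • e c) - u y = (u (y + k • e c) - T e u (y + k • e c)) +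
      (T e u (y + k • e c) - T e u y) - (u y - T e u y) := by abel
  rw [h6]
  refine (norm_sub_le _ _).trans ?_
  have h7 := norm_add_le (u (y + k • e c) - T e u (y + k • e c)) (T e u (y + k • e c) - T e u y)
  linarith

end Pool.Agent.LqAll
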