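import Mathlib
import Pool.Agent.LqAll.Vec

set_option autoImplicit false
set_option linter.unusedSectionVars false

/-!
Coordinatewise limits of bounded families in `ℓ_p`, `2 < p < ∞`.
-/

namespace Pool.Agent.LqAll

open Finset Filter Topology

variable {α : Type} {p : ENNReal} [Fact (1 ≤ p)]

/-- `v` is the coordinatewise limit of `φ` along the ultrafilter `U`. -/
def WL (U : Ultrafilter α) (φ : α → Lr p) (v : Lr p) : Prop :=
  ∀ i : ℕ, Tendsto (fun a => φ a i) (U : Filter α) (𝓝 (v i))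

theorem WL.unique {U : Ultrafilter α} {φ : α → Lr p} {v w : Lr p} (hv : WL U φ v) (hw : WL U φ w) :
    v = w := by
  apply lp.ext
  funext i
  exact tendsto_nhds_unique (hv i) (hw i)

theorem WL.sub {U : Ultrafilter α} {φ ψ : α → Lr p} {v w : Lr p} (hv : WL U φ v) (hw : WL U ψ w) :
    WL U (fun a => φ a - ψ a) (v - w) := by
  intro i
  simp only [lp.coeFn_sub, Pi.sub_apply]
  exact (hv i).sub (hw i)

theorem WL.const (U : Ultrafilter α) (v : Lr p) : WL U (fun _ => v) v := fun _ =>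
  tendsto_const_nhds

theorem WL.congr {U : Ultrafilter α} {φ ψ : α → Lr p} {v : Lr p} (hv : WL U φ v)
    (h : ∀ᶠ a in (U : Filter α), φ a = ψ a) : WL U ψ v := by
  intro i
  refine (hv i).congr' ?_
  filter_upwards [h] with a ha
  rw [ha]

theorem sum_le_norm (hr : 2 < p.toReal) (v : Lr p) (s : Finset ℕ) :
    ∑ i ∈ s, |v i| ^ p.toReal ≤ ‖v‖ ^ p.toReal :=
  sum_le_hasSum s (fun i _ => Real.rpow_nonneg (abs_nonneg _) _) (hasSum_r hr v)

theorem norm_pow_le_of_sum_le (hr : 2 < p.toReal) (v : Lr p) (B : ℝ)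
    (h : ∀ s : Finset ℕ, ∑ i ∈ s, |v i| ^ p.toReal ≤ B) : ‖v‖ ^ p.toReal ≤ B :=
  le_of_tendsto' (hasSum_r hr v) h

theorem continuous_absr (hr : 2 < p.toReal) : Continuous fun x : ℝ => |x| ^ p.toReal :=
  continuous_abs.rpow_const fun _ => Or.inr (by linarith)

theorem WL.norm_pow_le (hr : 2 < p.toReal) {U : Ultrafilter α} {φ : α → Lr p} {v : Lr p}
    (hv : WL U φ v) {B : ℝ}
    (h : ∀ᶠ a in (U : Filter α), ‖φ a‖ ^ p.toReal ≤ B) : ‖v‖ ^ p.toReal ≤ B := by
  refine norm_pow_le_of_sum_le hr v B fun s => ?_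
  have h1 : Tendsto (fun a => ∑ i ∈ s, |φ a i| ^ p.toReal) (U : Filter α)
      (𝓝 (∑ i ∈ s, |v i| ^ p.toReal)) :=
    tendsto_finsetSum _ fun i _ => ((continuous_absr hr).tendsto _).comp (hv i)
  refine le_of_tendsto h1 ?_
  filter_upwards [h] with a ha
  exact (sum_le_norm hr (φ a) s).trans ha

theorem WL.norm_le (hr : 2 < p.toReal) {U : Ultrafilter α} {φ : α → Lr p} {v : Lr p}
    (hv : WL U φ v) {C : ℝ}
    (hC : 0 ≤ C) (h : ∀ᶠ a in (U : Filter α), ‖φ a‖ ≤ C) : ‖v‖ ≤ C := by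
  have h1 : ‖v‖ ^ p.toReal ≤ C ^ p.toReal := by
    refine hv.norm_pow_le hr ?_
    filter_upwards [h] with a ha
    exact Real.rpow_le_rpow (norm_nonneg _) ha (by linarith)
  exact (Real.rpow_le_rpow_iff (norm_nonneg _) hC (by linarith)).1 h1

theorem p_ne_zero (hr : 2 < p.toReal) : p ≠ 0 := by
  intro h
  rw [h] at hr
  norm_num at hr

theorem p_ne_top (hr : 2 < p.toReal) : p ≠ ⊤ := by
  intro h
  rw [h] at hr
  norm_num at hr

theorem WL.exists (hr : 2 < p.toReal) {U : Ultrafilter α} {φ : α → Lr p} {C : ℝ}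
    (h : ∀ᶠ a in (U : Filter α), ‖φ a‖ ≤ C) : ∃ v, WL U φ v := by
  have hcoord : ∀ (w : Lr p) (i : ℕ), |w i| ≤ ‖w‖ := by
    intro w i
    have := lp.norm_apply_le_norm (p := p) (p_ne_zero hr) w i
    simpa using this
  have hlim : ∀ i : ℕ, ∃ x : ℝ, Tendsto (fun a => φ a i) (U : Filter α) (𝓝 x) := by
    intro i
    have hcomp : IsCompact (Set.Icc (-C) C) := isCompact_Icc
    have hmem : ∀ᶠ a in (U : Filter α), φ a i ∈ Set.Icc (-C) C := by
      filter_upwards [h] with a ha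
      have := (hcoord (φ a) i).trans ha
      exact abs_le.1 this
    obtain ⟨x, -, hx⟩ := hcomp.ultrafilter_le_nhds (U.map fun a => φ a i)
      (Filter.le_principal_iff.2 (Ultrafilter.mem_map.2 hmem))
    exact ⟨x, hx⟩
  choose x hx using hlim
  have hmem : Memℓp x p := by
    refine memℓp_gen' (C := C ^ p.toReal) fun s => ?_
    have h1 : Tendsto (fun a => ∑ i ∈ s, |φ a i| ^ p.toReal) (U : Filter α)
        (𝓝 (∑ i ∈ s, |x i| ^ p.toReal)) :=
      tendsto_finsetSum _ fun i _ => ((continuous_absr hr).tendsto _).comp (hx i)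
    have h2 : ∑ i ∈ s, |x i| ^ p.toReal ≤ C ^ p.toReal := by
      refine le_of_tendsto h1 ?_
      filter_upwards [h] with a ha
      exact (sum_le_norm hr (φ a) s).trans (Real.rpow_le_rpow (norm_nonneg _) ha (by linarith))
    simpa [Real.norm_eq_abs] using h2
  exact ⟨⟨x, hmem⟩, hx⟩

/-- Truncations of `v` converge to `v`. -/
theorem exists_finite_approx (hr : 2 < p.toReal) (v : Lr p) {δ : ℝ} (hδ : 0 < δ) :
    ∃ s : Finset ℕ, ‖v - ∑ i ∈ s, lp.single p i (v i)‖ < δ := by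
  have h := lp.hasSum_single (p := p) (p_ne_top hr) v
  have h1 := (Metric.tendsto_nhds.1 h δ hδ).exists
  obtain ⟨s, hs⟩ := h1
  refine ⟨s, ?_⟩
  rw [dist_comm, dist_eq_norm] at hs
  exact hs

theorem trunc_coord (v : Lr p) (s : Finset ℕ) (j : ℕ) :
    (∑ i ∈ s, lp.single p i (v i) : Lr p) j = if j ∈ s then v j else 0 := by
  rw [lp.coeFn_sum, Finset.sum_apply]
  by_cases hj : j ∈ s
  · rw [if_pos hj, Finset.sum_eq_single_of_mem j hj]
    · simp
    · intro i _ hij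
      simp [Ne.symm hij]
  · rw [if_neg hj]
    refine Finset.sum_eq_zero fun i hi => ?_
    have : j ≠ i := fun h => hj (h ▸ hi)
    simp [this]

theorem norm_add_trunc (hr : 2 < p.toReal) (z v : Lr p) (s : Finset ℕ) :
    ‖z + ∑ i ∈ s, lp.single p i (v i)‖ ^ p.toReal ≤
      ‖z‖ ^ p.toReal + ∑ i ∈ s, (|z i + v i| ^ p.toReal - |z i| ^ p.toReal) := by
  have h1 := hasSum_r hr (z + ∑ i ∈ s, lp.single p i (v i))
  have h2 := hasSum_r hr z
  have h3 : HasSum (fun i => if i ∈ s then (|z i + v i| ^ p.toReal - |z i| ^ p.toReal) else 0)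
      (∑ i ∈ s, (|z i + v i| ^ p.toReal - |z i| ^ p.toReal)) := by
    have : HasSum (fun i => if i ∈ s then (|z i + v i| ^ p.toReal - |z i| ^ p.toReal) else 0)
        (∑ i ∈ s, if i ∈ s then (|z i + v i| ^ p.toReal - |z i| ^ p.toReal) else 0) :=
      hasSum_sum_of_ne_finset_zero fun i hi => if_neg hi
    have h4 : (∑ i ∈ s, if i ∈ s then (|z i + v i| ^ p.toReal - |z i| ^ p.toReal) else 0) =
        ∑ i ∈ s, (|z i + v i| ^ p.toReal - |z i| ^ p.toReal) :=
      Finset.sum_congr rfl fun i hi => if_pos hi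
    rwa [h4] at this
  refine hasSum_le (fun i => ?_) h1 (h2.add h3)
  rw [lp.coeFn_add, Pi.add_apply, trunc_coord]
  by_cases hi : i ∈ s
  · rw [if_pos hi, if_pos hi]
    linarith
  · rw [if_neg hi, if_neg hi]
    simp

/-- The Brezis-Lieb type estimate in `ℓ_p`. -/
theorem brezis_lieb (hr : 2 < p.toReal) {U : Ultrafilter α} {z : α → Lr p} (hz : WL U z 0)
    (v : Lr p) {B : ℝ}
    (hB : ∀ ε > 0, ∀ᶠ a in (U : Filter α), ‖z a‖ ^ p.toReal ≤ B + ε) {ε : ℝ} (hε : 0 < ε) :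
    ∀ᶠ a in (U : Filter α), ‖z a + v‖ ^ p.toReal ≤ B + ‖v‖ ^ p.toReal + ε := by
  set r := p.toReal with hrdef
  have hr0 : 0 < r := by linarith
  have hnn : ∀ x : Lr p, 0 ≤ ‖x‖ ^ r := fun x => Real.rpow_nonneg (norm_nonneg _) _
  have hB0 : 0 ≤ B := by
    refine le_of_forall_pos_le_add fun ε hε => ?_
    obtain ⟨a, ha⟩ := (hB ε hε).exists
    exact le_trans (hnn _) ha
  set t : ℝ := (B + ‖v‖ ^ r + ε / 2) ^ (r⁻¹) with ht
  have htpos : 0 ≤ B + ‖v‖ ^ r + ε / 2 := by have := hnn v; positivity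
  have ht4 : t ^ r = B + ‖v‖ ^ r + ε / 2 := Real.rpow_inv_rpow htpos hr0.ne'
  have ht0 : 0 ≤ t := Real.rpow_nonneg htpos _
  obtain ⟨δ, hδ, hδ2⟩ : ∃ δ > 0, (t + δ) ^ r ≤ t ^ r + ε / 2 := by
    have hc : Tendsto (fun δ : ℝ => (t + δ) ^ r) (𝓝 0) (𝓝 ((t + 0) ^ r)) := by
      have : Continuous fun δ : ℝ => (t + δ) ^ r :=
        (continuous_const.add continuous_id).rpow_const fun _ => Or.inr hr0.le
      exact this.tendsto 0
    rw [add_zero] at hc
    have h1 : ∀ᶠ δ in 𝓝 (0 : ℝ), (t + δ) ^ r < t ^ r + ε / 2 :=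
      hc.eventually_lt_const (by linarith)
    have h2 : ∀ᶠ δ in 𝓝[>] (0 : ℝ), (t + δ) ^ r < t ^ r + ε / 2 :=
      h1.filter_mono nhdsWithin_le_nhds
    obtain ⟨δ, h3, h4⟩ := (h2.and self_mem_nhdsWithin).exists
    exact ⟨δ, h4, h3.le⟩
  obtain ⟨s, hs⟩ := exists_finite_approx hr v hδ
  set vs : Lr p := ∑ i ∈ s, lp.single p i (v i) with hvs
  have hlim : Tendsto (fun a => ∑ i ∈ s, (|z a i + v i| ^ r - |z a i| ^ r)) (U : Filter α)
      (𝓝 (∑ i ∈ s, |v i| ^ r)) := by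
    refine tendsto_finsetSum _ fun i _ => ?_
    have h1 : Tendsto (fun a => z a i) (U : Filter α) (𝓝 0) := hz i
    have h2 := (((continuous_absr hr).tendsto (0 + v i)).comp (h1.add_const (v i))).sub
      (((continuous_absr hr).tendsto 0).comp h1)
    have h3 : |(0 : ℝ) + v i| ^ r - |(0 : ℝ)| ^ r = |v i| ^ r := by
      rw [zero_add, abs_zero, Real.zero_rpow hr0.ne', sub_zero]
    rw [h3] at h2
    exact h2
  have hev : ∀ᶠ a in (U : Filter α),
      ∑ i ∈ s, (|z a i + v i| ^ r - |z a i| ^ r) < ‖v‖ ^ r + ε / 4 := by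
    refine hlim.eventually_lt_const ?_
    have := sum_le_norm hr v s
    linarith
  filter_upwards [hev, hB (ε / 4) (by linarith)] with a ha hb
  have h1 := norm_add_trunc hr (z a) v s
  have h2 : ‖z a + vs‖ ^ r ≤ t ^ r := by
    rw [ht4]
    linarith
  have h3 : ‖z a + vs‖ ≤ t := (Real.rpow_le_rpow_iff (norm_nonneg _) ht0 hr0).1 h2
  have h4 : ‖z a + v‖ ≤ t + δ := by
    have : z a + v = (z a + vs) + (v - vs) := by abel
    rw [this]
    refine (norm_add_le _ _).trans ?_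
    linarith
  calc ‖z a + v‖ ^ r ≤ (t + δ) ^ r := Real.rpow_le_rpow (norm_nonneg _) h4 hr0.le
    _ ≤ t ^ r + ε / 2 := hδ2
    _ = B + ‖v‖ ^ r + ε := by rw [ht4]; ring

/-- The weak limit (junk value `0` if it does not exist). -/
noncomputable def wlim (U : Ultrafilter α) (φ : α → Lr p) : Lr p :=
  open Classical in if h : ∃ v, WL U φ v then h.choose else 0

theorem wlim_spec (hr : 2 < p.toReal) {U : Ultrafilter α} {φ : α → Lr p} {C : ℝ}
    (h : ∀ᶠ a in (U : Filter α), ‖φ a‖ ≤ C) : WL U φ (wlim U φ) := by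
  have h1 : ∃ v, WL U φ v := WL.exists hr h
  unfold wlim
  rw [dif_pos h1]
  exact h1.choose_spec

end Pool.Agent.LqAll
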