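import Mathlib
import Pool.Agent.LqAll.WeakLim
import Pool.Agent.LqEmb.Iter

set_option autoImplicit false
set_option linter.unusedSectionVars false

/-!
Iterated ultrafilter limits, indexed by finite words, for maps into `ℓ_p`.
-/

namespace Pool.Agent.LqAll

open Finset Filter Topology
open Pool.Agent.LqEmb (V scons sapp ev_add ev_inj pt pt_app)

variable {p : ENNReal} [Fact (1 ≤ p)]
variable {A X : Type} [NormedAddCommGroup X]

variable (e : ℕ → A → X) (f : X → Lr p)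

/-- The iterated weak limit of `f` along a word. -/
noncomputable def F (b : ℕ → A) (k : ℕ) (x : X) : Lr p :=
  wlim (V k) (fun s => f (x + pt e b k s))

variable {e f} {C D : ℝ}

theorem f_bdd (hf : ∀ x y, ‖x - y‖ ≤ D → ‖f x - f y‖ ≤ C) (b : ℕ → A)
    (hb : ∀ j n, ‖e n (b j)‖ ≤ D) (k : ℕ) (x : X) (s : ℕ → ℕ) :
    ‖f (x + pt e b k s)‖ ≤ ‖f x‖ + k * C := by
  induction k with
  | zero => simp [pt]
  | succ k ih =>
    have h1 : pt e b (k + 1) s = pt e b k s + e (s k) (b k) := by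
      unfold pt
      rw [Finset.sum_range_succ]
    have h2 : ‖f (x + pt e b (k + 1) s) - f (x + pt e b k s)‖ ≤ C := by
      apply hf
      rw [h1]
      have : x + (pt e b k s + e (s k) (b k)) - (x + pt e b k s) = e (s k) (b k) := by abel
      rw [this]
      exact hb k (s k)
    have h3 : f (x + pt e b (k + 1) s) =
        (f (x + pt e b (k + 1) s) - f (x + pt e b k s)) + f (x + pt e b k s) := by abel
    rw [h3]
    refine (norm_add_le _ _).trans ?_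
    push_cast
    linarith

variable (hr : 2 < p.toReal)
include hr

theorem F_spec (hf : ∀ x y, ‖x - y‖ ≤ D → ‖f x - f y‖ ≤ C) (b : ℕ → A)
    (hb : ∀ j n, ‖e n (b j)‖ ≤ D) (k : ℕ) (x : X) :
    WL (V k) (fun s => f (x + pt e b k s)) (F e f b k x) :=
  wlim_spec hr (Filter.Eventually.of_forall fun s => f_bdd hf b hb k x s)

theorem F_lip (hf : ∀ x y, ‖x - y‖ ≤ D → ‖f x - f y‖ ≤ C) (hC : 0 ≤ C) (b : ℕ → A)
    (hb : ∀ j n, ‖e n (b j)‖ ≤ D) (k : ℕ) (x x' : X) (h : ‖x - x'‖ ≤ D) :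
    ‖F e f b k x - F e f b k x'‖ ≤ C := by
  refine WL.norm_le hr ((F_spec hr hf b hb k x).sub (F_spec hr hf b hb k x')) hC ?_
  refine Filter.Eventually.of_forall fun s => hf _ _ ?_
  rwa [add_sub_add_right_eq_sub]

theorem F_app (hf : ∀ x y, ‖x - y‖ ≤ D → ‖f x - f y‖ ≤ C) (b : ℕ → A)
    (hb : ∀ j n, ‖e n (b j)‖ ≤ D) (j k : ℕ) (x : X) :
    WL (V j) (fun s₁ => F e f (fun i => b (i + j)) k (x + pt e b j s₁)) (F e f b (j + k) x) := by
  have hb' : ∀ i n, ‖e n ((fun i => b (i + j)) i)‖ ≤ D := fun i n => hb (i + j) n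
  intro i
  rw [Metric.tendsto_nhds]
  intro ε hε
  have h1 := Metric.tendsto_nhds.1 (F_spec hr hf b hb (j + k) x i) (ε / 2) (by linarith)
  rw [ev_add] at h1
  filter_upwards [h1] with s₁ hs₁
  have h2 := F_spec hr hf (fun i => b (i + j)) hb' k (x + pt e b j s₁) i
  have h3 : Tendsto (fun s₂ => dist (f (x + pt e b j s₁ + pt e (fun i => b (i + j)) k s₂) i)
      (F e f b (j + k) x i)) (V k : Filter (ℕ → ℕ))
      (𝓝 (dist (F e f (fun i => b (i + j)) k (x + pt e b j s₁) i) (F e f b (j + k) x i))) :=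
    h2.dist tendsto_const_nhds
  refine lt_of_le_of_lt (le_of_tendsto h3 ?_) (by linarith : ε / 2 < ε)
  filter_upwards [hs₁] with s₂ hs₂
  rw [pt_app, ← add_assoc] at hs₂
  exact hs₂.le

theorem F_compare (hf : ∀ x y, ‖x - y‖ ≤ D → ‖f x - f y‖ ≤ C) (hC : 0 ≤ C) (b b' : ℕ → A)
    (hb : ∀ j n, ‖e n (b j)‖ ≤ D) (hb' : ∀ j n, ‖e n (b' j)‖ ≤ D) (k : ℕ) (x : X)
    (h : ∀ᶠ s in (V k : Filter (ℕ → ℕ)), ‖pt e b k s - pt e b' k s‖ ≤ D) :
    ‖F e f b k x - F e f b' k x‖ ≤ C := by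
  refine WL.norm_le hr ((F_spec hr hf b hb k x).sub (F_spec hr hf b' hb' k x)) hC ?_
  filter_upwards [h] with s hs
  apply hf
  rwa [add_sub_add_left_eq_sub]

theorem F_near (hf : ∀ x y, ‖x - y‖ ≤ D → ‖f x - f y‖ ≤ C) (hC : 0 ≤ C) (b : ℕ → A)
    (hb : ∀ j n, ‖e n (b j)‖ ≤ D) (k : ℕ) (x : X)
    (h : ∀ᶠ s in (V k : Filter (ℕ → ℕ)), ‖pt e b k s‖ ≤ D) :
    ‖F e f b k x - f x‖ ≤ C := by
  refine WL.norm_le hr ((F_spec hr hf b hb k x).sub (WL.const (V k) (f x))) hC ?_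
  filter_upwards [h] with s hs
  apply hf
  rwa [add_sub_cancel_left]

theorem F_append (hf : ∀ x y, ‖x - y‖ ≤ D → ‖f x - f y‖ ≤ C) (hC : 0 ≤ C) (b : ℕ → A)
    (hb : ∀ j n, ‖e n (b j)‖ ≤ D) (k s : ℕ) (x : X)
    (h : ∀ᶠ l in (V s : Filter (ℕ → ℕ)), ‖pt e (fun i => b (i + k)) s l‖ ≤ D) :
    ‖F e f b (k + s) x - F e f b k x‖ ≤ C := by
  have hb' : ∀ i n, ‖e n ((fun i => b (i + k)) i)‖ ≤ D := fun i n => hb (i + k) n
  refine WL.norm_le hr ((F_app hr hf b hb k s x).sub (F_spec hr hf b hb k x)) hC ?_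
  refine Filter.Eventually.of_forall fun l => ?_
  exact F_near hr hf hC _ hb' s _ h

theorem F_delete (hf : ∀ x y, ‖x - y‖ ≤ D → ‖f x - f y‖ ≤ C) (hC : 0 ≤ C) (b : ℕ → A)
    (hb : ∀ j n, ‖e n (b j)‖ ≤ D) (k s : ℕ) (x : X)
    (h : ∀ᶠ l in (V s : Filter (ℕ → ℕ)), ‖pt e b s l‖ ≤ D) :
    ‖F e f b (s + k) x - F e f (fun i => b (i + s)) k x‖ ≤ C := by
  have hb' : ∀ i n, ‖e n ((fun i => b (i + s)) i)‖ ≤ D := fun i n => hb (i + s) n
  refine WL.norm_le hr ((F_app hr hf b hb s k x).sub (WL.const (V s) _)) hC ?_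
  filter_upwards [h] with l hl
  apply F_lip hr hf hC _ hb'
  rwa [add_sub_cancel_left]

/-- Moving from one word to another with the same phases up to a shift. -/
theorem F_move (hf : ∀ x y, ‖x - y‖ ≤ D → ‖f x - f y‖ ≤ C) (hC : 0 ≤ C) (b b' : ℕ → A)
    (hb : ∀ j n, ‖e n (b j)‖ ≤ D) (hb' : ∀ j n, ‖e n (b' j)‖ ≤ D) (k s : ℕ) (x : X)
    (h1 : ∀ᶠ l in (V s : Filter (ℕ → ℕ)), ‖pt e (fun i => b (i + k)) s l‖ ≤ D)
    (h2 : ∀ᶠ l in (V s : Filter (ℕ → ℕ)), ‖pt e b s l‖ ≤ D)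
    (h3 : ∀ᶠ l in (V k : Filter (ℕ → ℕ)), ‖pt e (fun i => b (i + s)) k l - pt e b' k l‖ ≤ D) :
    ‖F e f b k x - F e f b' k x‖ ≤ 3 * C := by
  have hbs : ∀ i n, ‖e n ((fun i => b (i + s)) i)‖ ≤ D := fun i n => hb (i + s) n
  have e1 := F_append hr hf hC b hb k s x h1
  have e2 := F_delete hr hf hC b hb k s x h2
  have e3 := F_compare hr hf hC (fun i => b (i + s)) b' hbs hb' k x h3
  rw [add_comm s k] at e2
  have : F e f b k x - F e f b' k x = -(F e f b (k + s) x - F e f b k x) +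
      (F e f b (k + s) x - F e f (fun i => b (i + s)) k x) +
      (F e f (fun i => b (i + s)) k x - F e f b' k x) := by abel
  rw [this]
  refine norm_add₃_le.trans ?_
  rw [norm_neg]
  linarith

/-- Concentration. -/
theorem conc (hf : ∀ x y, ‖x - y‖ ≤ D → ‖f x - f y‖ ≤ C) (hC : 0 ≤ C) (L : ℕ) (N : ℕ) :
    ∀ (b : ℕ → A) (_ : ∀ j n, ‖e n (b j)‖ ≤ D)
      (_ : ∀ i, ∀ᶠ s in (V L : Filter (ℕ → ℕ)), ‖pt e (fun j => b (j + i)) L s‖ ≤ D / 2)
      (x : X) (ε : ℝ) (_ : 0 < ε),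
      ∀ᶠ s in (V (N * L) : Filter (ℕ → ℕ)),
        ‖f (x + pt e b (N * L) s) - F e f b (N * L) x‖ ^ p.toReal ≤ N * C ^ p.toReal + ε := by
  have hr0 : 0 < p.toReal := by linarith
  induction N with
  | zero =>
    intro b hb _ x ε hε
    rw [Nat.zero_mul]
    have h0 : F e f b 0 x = f x := by
      refine (F_spec hr hf b hb 0 x).unique ?_
      refine (WL.const (V 0) (f x)).congr ?_
      refine Filter.Eventually.of_forall fun s => ?_
      simp [pt]
    refine Filter.Eventually.of_forall fun s => ?_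
    rw [h0]
    simp [pt, hε.le, Real.zero_rpow hr0.ne']
  | succ N ih =>
    intro b hb hL x ε hε
    have hb' : ∀ i n, ‖e n ((fun i => b (i + L)) i)‖ ≤ D := fun i n => hb (i + L) n
    have hL' : ∀ i, ∀ᶠ s in (V L : Filter (ℕ → ℕ)),
        ‖pt e (fun j => (fun i => b (i + L)) (j + i)) L s‖ ≤ D / 2 := by
      intro i
      have := hL (i + L)
      simpa only [← add_assoc] using this
    have hL0 : ∀ᶠ s in (V L : Filter (ℕ → ℕ)), ‖pt e b L s‖ ≤ D / 2 := hL 0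
    rw [show (N + 1) * L = L + N * L by ring, ev_add]
    have hw := F_app hr hf b hb L (N * L) x
    filter_upwards [hL0] with s₁ hs₁
    set b' : ℕ → A := fun i => b (i + L) with hb'def
    set x₁ : X := x + pt e b L s₁ with hx₁
    set v : Lr p := F e f b' (N * L) x₁ - F e f b (L + N * L) x with hv
    have hvC : ‖v‖ ≤ C := by
      refine WL.norm_le hr ((WL.const (V L) (F e f b' (N * L) x₁)).sub hw) hC ?_
      filter_upwards [hL0] with s₁' hs₁'
      refine F_lip hr hf hC _ hb' _ _ _ ?_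
      rw [hx₁, add_sub_add_left_eq_sub]
      refine (norm_sub_le _ _).trans ?_
      linarith
    have hz : WL (V (N * L)) (fun s₂ => f (x₁ + pt e b' (N * L) s₂) - F e f b' (N * L) x₁) 0 := by
      have := (F_spec hr hf b' hb' (N * L) x₁).sub (WL.const (V (N * L)) (F e f b' (N * L) x₁))
      rwa [sub_self] at this
    have hBL := brezis_lieb hr hz v (B := N * C ^ p.toReal)
      (fun ε' hε' => ih b' hb' hL' x₁ ε' hε') hε
    filter_upwards [hBL] with s₂ hs₂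
    rw [pt_app, ← add_assoc]
    have h1 : f (x + pt e b L s₁ + pt e (fun i => b (i + L)) (N * L) s₂) - F e f b (L + N * L) x =
        f (x₁ + pt e b' (N * L) s₂) - F e f b' (N * L) x₁ + v := by
      rw [hv, hx₁, hb'def]
      abel
    rw [h1]
    refine hs₂.trans ?_
    have h2 : ‖v‖ ^ p.toReal ≤ C ^ p.toReal := Real.rpow_le_rpow (norm_nonneg _) hvC hr0.le
    push_cast
    linarith

end Pool.Agent.LqAll
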