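import Mathlib
import Pool.Agent.LqEmb.Sys

set_option autoImplicit false
set_option linter.unusedSectionVars false

/-!
Moments of Rademacher sums with an arbitrary exponent `r ≥ 2`.
-/

namespace Pool.Agent.LqAll

open Finset MeasureTheory Pool.Agent.LqEmb

theorem nice_absr {f : ℝ → ℝ} (hf : Nice f) {r : ℝ} (hr : 0 ≤ r) : Nice fun x => |f x| ^ r := by
  obtain ⟨h1, C, hC⟩ := hf
  refine ⟨(h1.norm).pow_const r, C ^ r, fun x => ?_⟩
  rw [abs_of_nonneg (Real.rpow_nonneg (abs_nonneg _) _)]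
  exact Real.rpow_le_rpow (abs_nonneg _) (hC x) hr

theorem nice_exp {f : ℝ → ℝ} (hf : Nice f) : Nice fun x => Real.exp (f x) := by
  obtain ⟨h1, C, hC⟩ := hf
  refine ⟨Real.measurable_exp.comp h1, Real.exp C, fun x => ?_⟩
  rw [abs_of_pos (Real.exp_pos _)]
  exact Real.exp_le_exp.2 ((le_abs_self _).trans (hC x))

theorem exp_moment (S : Finset ℕ) (β : ℕ → ℝ) :
    ∫ x in (0 : ℝ)..1, Real.exp (rp S β x) ≤ Real.exp ((∑ n ∈ S, (β n) ^ 2) / 2) := by
  induction S using Finset.induction_on_min with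
  | empty => simp [rp]
  | insert a S hS ih =>
    have ha : a ∉ S := fun h => lt_irrefl a (hS a h)
    have hrp : ∀ x, rp (insert a S) β x = β a * rad a x + rp S β x := by
      intro x
      unfold rp
      exact Finset.sum_insert ha
    have hper := rp_periodic_fine a S hS β
    have hN := nice_exp (nice_rp S β)
    have hexp : ∀ x, Real.exp (rp (insert a S) β x) =
        Real.cosh (β a) * Real.exp (rp S β x) +
          rad a x * (Real.sinh (β a) * Real.exp (rp S β x)) := by
      intro x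
      rw [hrp, Real.exp_add]
      have h1 : rad a x = 1 ∨ rad a x = -1 := by
        have := rad_sq a x
        exact (mul_self_eq_one_iff (a := rad a x)).1 (by rw [← sq]; exact this)
      rcases h1 with h1 | h1
      · rw [h1, mul_one, one_mul, ← Real.cosh_add_sinh]; ring
      · rw [h1, mul_neg, mul_one, ← Real.cosh_sub_sinh]; ring
    have o1 : ∫ x in (0 : ℝ)..1, rad a x * (Real.sinh (β a) * Real.exp (rp S β x)) = 0 := by
      apply integral_odd a (fun x => Real.sinh (β a) * Real.exp (rp S β x))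
      · intro x
        change Real.sinh (β a) * Real.exp (rp S β (x + 1)) = Real.sinh (β a) * Real.exp (rp S β x)
        rw [rp_periodic_one S β x]
      · intro x
        rw [hper x]
    have n1 : Nice fun x => Real.cosh (β a) * Real.exp (rp S β x) := (Nice.const _).mul hN
    have n2 : Nice fun x => rad a x * (Real.sinh (β a) * Real.exp (rp S β x)) :=
      (nice_rad a).mul ((Nice.const _).mul hN)
    simp only [hexp]
    rw [intervalIntegral.integral_add (n1.intervalIntegrable _ _) (n2.intervalIntegrable _ _), o1,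
      add_zero, intervalIntegral.integral_const_mul, Finset.sum_insert ha, add_div, Real.exp_add]
    exact mul_le_mul (Real.cosh_le_exp_half_sq _) ih
      (intervalIntegral.integral_nonneg zero_le_one fun x _ => (Real.exp_pos _).le)
      (Real.exp_pos _).le

/-- the bound for the `r`-th moment -/
noncomputable def mom (r : ℝ) : ℝ := (1 + (⌈r⌉₊.factorial : ℝ)) * (2 * Real.exp (1 / 2))

theorem mom_pos (r : ℝ) : 0 < mom r := by
  unfold mom
  positivity

theorem abs_rpow_le (r : ℝ) (hr : 0 ≤ r) (x : ℝ) :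
    |x| ^ r ≤ (1 + (⌈r⌉₊.factorial : ℝ)) * (Real.exp x + Real.exp (-x)) := by
  have h1 : |x| ^ r ≤ 1 + |x| ^ ⌈r⌉₊ := by
    rcases le_total |x| 1 with h | h
    · have : |x| ^ r ≤ 1 := Real.rpow_le_one (abs_nonneg _) h hr
      have : 0 ≤ |x| ^ ⌈r⌉₊ := by positivity
      linarith
    · have : |x| ^ r ≤ |x| ^ ((⌈r⌉₊ : ℕ) : ℝ) := Real.rpow_le_rpow_of_exponent_le h (Nat.le_ceil r)
      rw [Real.rpow_natCast] at this
      linarith
  have h2 : |x| ^ ⌈r⌉₊ ≤ (⌈r⌉₊.factorial : ℝ) * Real.exp |x| := by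
    have := Real.pow_div_factorial_le_exp |x| (abs_nonneg _) ⌈r⌉₊
    rw [div_le_iff₀ (by positivity)] at this
    linarith
  have h3 : Real.exp |x| ≤ Real.exp x + Real.exp (-x) := by
    rcases abs_cases x with h | h
    · rw [h.1]; have := Real.exp_pos (-x); linarith
    · rw [h.1]; have := Real.exp_pos x; linarith
  have h4 : 1 ≤ Real.exp |x| := Real.one_le_exp (abs_nonneg _)
  have h5 : (0 : ℝ) ≤ ⌈r⌉₊.factorial := by positivity
  calc |x| ^ r ≤ 1 + |x| ^ ⌈r⌉₊ := h1
    _ ≤ (1 + (⌈r⌉₊.factorial : ℝ)) * Real.exp |x| := by nlinarith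
    _ ≤ _ := mul_le_mul_of_nonneg_left h3 (by positivity)

theorem moment_upper {r : ℝ} (hr : 0 ≤ r) (S : Finset ℕ) (β : ℕ → ℝ)
    (h : ∑ n ∈ S, (β n) ^ 2 ≤ 1) : ∫ x in (0 : ℝ)..1, |rp S β x| ^ r ≤ mom r := by
  have hN := nice_rp S β
  have hneg : ∀ x, -rp S β x = rp S (fun n => -β n) x := by
    intro x
    unfold rp
    rw [← Finset.sum_neg_distrib]
    exact Finset.sum_congr rfl fun n _ => by ring
  have hN' : Nice fun x => -rp S β x := by
    have := nice_rp S (fun n => -β n)
    have h2 : (fun x => -rp S β x) = rp S (fun n => -β n) := funext hneg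
    rw [h2]; exact this
  have h1 : ∫ x in (0 : ℝ)..1, |rp S β x| ^ r ≤
      ∫ x in (0 : ℝ)..1, (1 + (⌈r⌉₊.factorial : ℝ)) *
        (Real.exp (rp S β x) + Real.exp (-rp S β x)) := by
    refine intervalIntegral.integral_mono_on zero_le_one
      ((nice_absr hN hr).intervalIntegrable _ _) ?_ fun x _ => abs_rpow_le r hr _
    exact ((Nice.const _).mul ((nice_exp hN).add (nice_exp hN'))).intervalIntegrable _ _
  refine h1.trans ?_
  rw [intervalIntegral.integral_const_mul, intervalIntegral.integral_add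
    ((nice_exp hN).intervalIntegrable _ _) ((nice_exp hN').intervalIntegrable _ _)]
  unfold mom
  refine mul_le_mul_of_nonneg_left ?_ (by positivity)
  have e1 := exp_moment S β
  have e2 := exp_moment S (fun n => -β n)
  have h3 : ∑ n ∈ S, (-β n) ^ 2 = ∑ n ∈ S, (β n) ^ 2 :=
    Finset.sum_congr rfl fun n _ => by ring
  simp only [hneg]
  rw [h3] at e2
  have e3 : Real.exp ((∑ n ∈ S, (β n) ^ 2) / 2) ≤ Real.exp (1 / 2) :=
    Real.exp_le_exp.2 (by linarith)
  linarith

theorem moment_lower {r : ℝ} (hr : 2 ≤ r) (S : Finset ℕ) (β : ℕ → ℝ) :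
    (∑ n ∈ S, (β n) ^ 2) ^ (r / 2) ≤ ∫ x in (0 : ℝ)..1, |rp S β x| ^ r := by
  have hN := nice_rp S β
  set A : ℝ := ∑ n ∈ S, (β n) ^ 2 with hA
  have hA0 : 0 ≤ A := Finset.sum_nonneg fun _ _ => sq_nonneg _
  have h2 : ∫ x in (0 : ℝ)..1, (rp S β x) ^ 2 = A := (rp_moments S β).1
  rcases eq_or_lt_of_le hA0 with h0 | hpos
  · rw [← h0, Real.zero_rpow (by linarith)]
    exact intervalIntegral.integral_nonneg zero_le_one fun x _ =>
      Real.rpow_nonneg (abs_nonneg _) _
  have hpt : ∀ x, A ^ (r / 2) * (1 + r / 2 * ((rp S β x) ^ 2 / A - 1)) ≤ |rp S β x| ^ r := by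
    intro x
    have h3 := one_add_mul_self_le_rpow_one_add (s := (rp S β x) ^ 2 / A - 1)
      (by have : 0 ≤ (rp S β x) ^ 2 / A := by positivity
          linarith) (p := r / 2) (by linarith)
    have h4 : |rp S β x| ^ r = A ^ (r / 2) * (1 + ((rp S β x) ^ 2 / A - 1)) ^ (r / 2) := by
      rw [show 1 + ((rp S β x) ^ 2 / A - 1) = (rp S β x) ^ 2 / A by ring,
        ← Real.mul_rpow hA0 (by positivity), mul_div_cancel₀ _ hpos.ne', ← sq_abs,
        ← Real.rpow_natCast, ← Real.rpow_mul (abs_nonneg _)]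
      congr 1; push_cast; ring
    rw [h4]
    exact mul_le_mul_of_nonneg_left h3 (Real.rpow_nonneg hA0 _)
  have h5 : ∫ x in (0 : ℝ)..1, A ^ (r / 2) * (1 + r / 2 * ((rp S β x) ^ 2 / A - 1)) =
      A ^ (r / 2) := by
    have e1 : ∀ x, A ^ (r / 2) * (1 + r / 2 * ((rp S β x) ^ 2 / A - 1)) =
        A ^ (r / 2) * (1 - r / 2) + (A ^ (r / 2) * (r / 2) / A) * (rp S β x) ^ 2 := by
      intro x; ring
    simp only [e1]
    rw [intervalIntegral.integral_add ((Nice.const _).intervalIntegrable _ _)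
      (((Nice.const _).mul (hN.pow 2)).intervalIntegrable _ _),
      intervalIntegral.integral_const, intervalIntegral.integral_const_mul
        (A ^ (r / 2) * (r / 2) / A) (fun x => (rp S β x) ^ 2), h2, sub_zero, one_smul]
    field_simp
    ring
  rw [← h5]
  refine intervalIntegral.integral_mono_on zero_le_one ?_
    ((nice_absr hN (by linarith)).intervalIntegrable _ _) fun x _ => hpt x
  have : Nice fun x => A ^ (r / 2) * (1 + r / 2 * ((rp S β x) ^ 2 / A - 1)) := by
    have h6 : (fun x => A ^ (r / 2) * (1 + r / 2 * ((rp S β x) ^ 2 / A - 1))) =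
        fun x => A ^ (r / 2) * (1 - r / 2) + (A ^ (r / 2) * (r / 2) / A) * (rp S β x) ^ 2 := by
      funext x; ring
    rw [h6]
    exact (Nice.const _).add ((Nice.const _).mul (hN.pow 2))
  exact this.intervalIntegrable _ _

end Pool.Agent.LqAll
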