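import Mathlib
import Pool.Agent.LqAll.Rad

set_option autoImplicit false
set_option linter.unusedSectionVars false

/-!
Disjoint blocks of Rademacher functions in `L_p[0,1]`.
-/

namespace Pool.Agent.LqAll

open Finset MeasureTheory Pool.Agent.LqEmb

variable {κ : Type} [Fintype κ] [Nonempty κ]

theorem integral_cell' {r : ℝ} (S : Finset ℕ) (β : ℕ → κ → ℝ) (c : κ) :
    ∫ t in ((idx κ c : ℕ) : ℝ)..(((idx κ c + 1 : ℕ)) : ℝ), |hsum S β t| ^ r =
      ∫ x in (0 : ℝ)..1, |rp S (fun n => β n c) x| ^ r := by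
  have h1 : ∫ t in ((idx κ c : ℕ) : ℝ)..(((idx κ c + 1 : ℕ)) : ℝ), |hsum S β t| ^ r =
      ∫ t in ((idx κ c : ℕ) : ℝ)..(((idx κ c + 1 : ℕ)) : ℝ), |rp S (fun n => β n c) t| ^ r := by
    have hle : ((idx κ c : ℕ) : ℝ) ≤ (((idx κ c + 1 : ℕ)) : ℝ) := by
      push_cast; linarith
    rw [intervalIntegral.integral_of_le hle, intervalIntegral.integral_of_le hle,
      integral_Ioc_eq_integral_Ioo, integral_Ioc_eq_integral_Ioo]
    refine setIntegral_congr_fun measurableSet_Ioo fun t ht => ?_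
    have hfl : ⌊t⌋ = (idx κ c : ℤ) := by
      rw [Int.floor_eq_iff]
      obtain ⟨h1, h2⟩ := ht
      push_cast at h1 h2 ⊢
      exact ⟨h1.le, h2⟩
    rw [hsum_cell S β c t hfl]
  rw [h1]
  have hper : Function.Periodic (fun t => |rp S (fun n => β n c) t| ^ r) 1 := by
    intro x
    simp only []
    rw [rp_periodic_one S _ x]
  have := hper.intervalIntegral_add_eq ((idx κ c : ℕ) : ℝ) 0
  rw [zero_add] at this
  push_cast
  exact this

theorem integral_hsum' {r : ℝ} (hr : 0 ≤ r) (S : Finset ℕ) (β : ℕ → κ → ℝ) :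
    ∫ x in (0 : ℝ)..1, |hsum S β ((Fintype.card κ : ℝ) * x)| ^ r =
      (Fintype.card κ : ℝ)⁻¹ * ∑ c, ∫ x in (0 : ℝ)..1, |rp S (fun n => β n c) x| ^ r := by
  have hN : (Fintype.card κ : ℝ) ≠ 0 := by
    have : 0 < Fintype.card κ := Fintype.card_pos
    positivity
  rw [intervalIntegral.integral_comp_mul_left (fun t => |hsum S β t| ^ r) hN, smul_eq_mul,
    mul_zero, mul_one]
  congr 1
  have h1 := intervalIntegral.sum_integral_adjacent_intervals (f := fun t => |hsum S β t| ^ r)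
    (μ := volume) (a := fun k : ℕ => (k : ℝ)) (n := Fintype.card κ)
    (fun k _ => (nice_absr (nice_hsum S β) hr).intervalIntegrable _ _)
  simp only [Nat.cast_zero] at h1
  rw [← h1, Finset.sum_range]
  rw [← Equiv.sum_comp (Fintype.equivFin κ)]
  exact Finset.sum_congr rfl fun c _ => integral_cell' S β c

/-- real `L_p[0,1]` -/
abbrev Xr (p : ENNReal) : Type := Lp ℝ p ((volume : Measure ℝ).restrict (Set.Icc 0 1))

variable {p : ENNReal} [Fact (1 ≤ p)]

/-- The norm identity in `L_p`. -/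
theorem norm_rpow (hr : 2 < p.toReal) (f : ℝ → ℝ)
    (hf : MemLp f p ((volume : Measure ℝ).restrict (Set.Icc 0 1))) :
    ‖hf.toLp f‖ ^ p.toReal = ∫ x in (0 : ℝ)..1, |f x| ^ p.toReal := by
  have hp0 : p ≠ 0 := by
    intro h
    rw [h] at hr
    norm_num at hr
  have hpt : p ≠ ⊤ := by
    intro h
    rw [h] at hr
    norm_num at hr
  have hnn : 0 ≤ ∫ x, ‖f x‖ ^ p.toReal ∂((volume : Measure ℝ).restrict (Set.Icc 0 1)) :=
    integral_nonneg fun x => by positivity
  rw [Lp.norm_toLp, hf.eLpNorm_eq_integral_rpow_norm hp0 hpt,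
    ENNReal.toReal_ofReal (by positivity), Real.rpow_inv_rpow hnn (by linarith),
    intervalIntegral.integral_of_le zero_le_one, integral_Icc_eq_integral_Ioc]
  rfl

theorem nice_memLp {f : ℝ → ℝ} (hf : Nice f) :
    MemLp f p ((volume : Measure ℝ).restrict (Set.Icc 0 1)) := by
  obtain ⟨h1, C, hC⟩ := hf
  exact MemLp.of_bound h1.aestronglyMeasurable C
    (Filter.Eventually.of_forall fun x => by simpa using hC x)

/-- the block Rademacher functions as elements of `L_p[0,1]` -/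
noncomputable def Gr (p : ENNReal) [Fact (1 ≤ p)] (n : ℕ) (c : κ) : Xr p :=
  (nice_memLp (p := p) (nice_gfun n c)).toLp (gfun n c)

theorem combo_norm' (hr : 2 < p.toReal) (S : Finset ℕ) (β : ℕ → κ → ℝ) :
    ‖∑ n ∈ S, ∑ c, β n c • Gr p n c‖ ^ p.toReal =
      ∫ x in (0 : ℝ)..1, |hsum S β ((Fintype.card κ : ℝ) * x)| ^ p.toReal := by
  have hN : Nice fun x => hsum S β ((Fintype.card κ : ℝ) * x) := (nice_hsum S β).comp_mul _
  rw [← norm_rpow hr _ (nice_memLp hN)]
  congr 2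
  apply Lp.ext
  refine (Lp.coeFn_fun_finsetSum S _).trans ?_
  refine Filter.EventuallyEq.trans ?_ (nice_memLp hN).coeFn_toLp.symm
  have h1 : ∀ n ∈ S, ∀ᵐ x ∂((volume : Measure ℝ).restrict (Set.Icc 0 1)),
      (∑ c, β n c • Gr (κ := κ) p n c : Xr p) x = ∑ c, β n c * gfun n c x := by
    intro n _
    have h2 : ∀ c ∈ (univ : Finset κ), ∀ᵐ x ∂((volume : Measure ℝ).restrict (Set.Icc 0 1)),
        (β n c • Gr (κ := κ) p n c : Xr p) x = β n c * gfun n c x := by
      intro c _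
      filter_upwards [Lp.coeFn_smul (β n c) (Gr (κ := κ) p n c),
        (nice_memLp (p := p) (nice_gfun (κ := κ) n c)).coeFn_toLp] with x hx1 hx2
      rw [hx1, Pi.smul_apply, smul_eq_mul]
      congr 1
    have h3 := (Filter.eventually_all_finset univ).2 h2
    filter_upwards [Lp.coeFn_fun_finsetSum univ (fun c => β n c • Gr (κ := κ) p n c), h3] with
      x hx1 hx2
    rw [hx1]
    exact Finset.sum_congr rfl fun c hc => hx2 c hc
  have h4 := (Filter.eventually_all_finset S).2 h1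
  filter_upwards [h4] with x hx
  unfold hsum
  exact Finset.sum_congr rfl fun n hn => hx n hn

theorem sys_upper' (hr : 2 < p.toReal) (S : Finset ℕ) (β : ℕ → κ → ℝ)
    (h : ∀ c, ∑ n ∈ S, (β n c) ^ 2 ≤ 1) :
    ‖∑ n ∈ S, ∑ c, β n c • Gr p n c‖ ^ p.toReal ≤ mom p.toReal := by
  have hr0 : 0 ≤ p.toReal := by linarith
  have hN : (0 : ℝ) < Fintype.card κ := by exact_mod_cast Fintype.card_pos
  rw [combo_norm' hr, integral_hsum' hr0]
  have h1 : ∑ c, ∫ x in (0 : ℝ)..1, |rp S (fun n => β n c) x| ^ p.toReal ≤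
      ∑ _c : κ, mom p.toReal :=
    Finset.sum_le_sum fun c _ => moment_upper hr0 S _ (h c)
  rw [Finset.sum_const, card_univ, nsmul_eq_mul] at h1
  calc (Fintype.card κ : ℝ)⁻¹ * ∑ c, ∫ x in (0 : ℝ)..1, |rp S (fun n => β n c) x| ^ p.toReal ≤
      (Fintype.card κ : ℝ)⁻¹ * (Fintype.card κ * mom p.toReal) :=
        mul_le_mul_of_nonneg_left h1 (by positivity)
    _ = mom p.toReal := by
        rw [← mul_assoc, inv_mul_cancel₀ hN.ne', one_mul]

theorem sys_lower' (hr : 2 < p.toReal) (S : Finset ℕ) (β : ℕ → κ → ℝ) :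
    (Fintype.card κ : ℝ)⁻¹ * ∑ c, (∑ n ∈ S, (β n c) ^ 2) ^ (p.toReal / 2) ≤
      ‖∑ n ∈ S, ∑ c, β n c • Gr p n c‖ ^ p.toReal := by
  rw [combo_norm' hr, integral_hsum' (by linarith)]
  refine mul_le_mul_of_nonneg_left ?_ (by positivity)
  exact Finset.sum_le_sum fun c _ => moment_lower (by linarith) S fun n => β n c

end Pool.Agent.LqAll
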