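import Mathlib
import Pool.Agent.LqAll.Sys
import Pool.Agent.LqEmb.Words

set_option autoImplicit false
set_option linter.unusedSectionVars false

/-!
The words used in the proof, in `L_p[0,1]`.
-/

namespace Pool.Agent.LqAll

open Finset MeasureTheory
open Pool.Agent.LqEmb (pt letter word phase Close chi chi_norm chi_half rp2 rp2_sum rp2_neg
  letter_sq_le letter_diff_sq_le phase_shift exists_shift)

variable {p : ENNReal} [Fact (1 ≤ p)]

section General

variable {κ : Type} [Fintype κ] [Nonempty κ]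

/-- the vector attached to a letter and an index -/
noncomputable def evr (p : ENNReal) [Fact (1 ≤ p)] (n : ℕ) (a : κ → ℝ) : Xr p :=
  ∑ c, a c • Gr p n c

theorem pt_evr_eq (b : ℕ → κ → ℝ) (k : ℕ) (s : ℕ → ℕ) (hs : Set.InjOn s (range k : Set ℕ)) :
    ∃ (S : Finset ℕ) (β : ℕ → κ → ℝ), pt (evr p) b k s = ∑ n ∈ S, ∑ c, β n c • Gr p n c ∧
      ∀ c, ∑ n ∈ S, (β n c) ^ 2 = ∑ j ∈ range k, (b j c) ^ 2 := by
  classical
  set inv : ℕ → ℕ := Function.invFunOn s (range k : Set ℕ) with hinv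
  have hleft : ∀ j ∈ range k, inv (s j) = j := fun j hj =>
    hs.leftInvOn_invFunOn (by simpa using hj)
  refine ⟨(range k).image s, fun n => b (inv n), ?_, ?_⟩
  · rw [Finset.sum_image (by simpa using hs)]
    unfold pt evr
    refine Finset.sum_congr rfl fun j hj => ?_
    simp only [hleft j hj]
  · intro c
    rw [Finset.sum_image (by simpa using hs)]
    refine Finset.sum_congr rfl fun j hj => ?_
    simp only [hleft j hj]

/-- the bound for the windows -/
noncomputable def Bd (r : ℝ) : ℝ := (mom r) ^ (r⁻¹)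

theorem Bd_pos (r : ℝ) : 0 < Bd r := Real.rpow_pos_of_pos (mom_pos r) _

theorem pt_upper' (hr : 2 < p.toReal) (b : ℕ → κ → ℝ) (k : ℕ) (s : ℕ → ℕ)
    (hs : Set.InjOn s (range k : Set ℕ)) (hA : ∀ c, ∑ j ∈ range k, (b j c) ^ 2 ≤ 1) :
    ‖pt (evr p) b k s‖ ≤ Bd p.toReal := by
  obtain ⟨S, β, h1, h2⟩ := pt_evr_eq (p := p) b k s hs
  have h3 := sys_upper' hr S β (fun c => by rw [h2 c]; exact hA c)
  rw [← h1] at h3
  have hr0 : 0 < p.toReal := by linarith
  rw [← Real.rpow_le_rpow_iff (norm_nonneg _) (Bd_pos _).le hr0]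
  unfold Bd
  rw [Real.rpow_inv_rpow (mom_pos _).le hr0.ne']
  exact h3

theorem pt_lower' (hr : 2 < p.toReal) (b : ℕ → κ → ℝ) (k : ℕ) (s : ℕ → ℕ)
    (hs : Set.InjOn s (range k : Set ℕ)) :
    (Fintype.card κ : ℝ)⁻¹ * ∑ c, (∑ j ∈ range k, (b j c) ^ 2) ^ (p.toReal / 2) ≤
      ‖pt (evr p) b k s‖ ^ p.toReal := by
  obtain ⟨S, β, h1, h2⟩ := pt_evr_eq (p := p) b k s hs
  rw [h1]
  refine le_trans (le_of_eq ?_) (sys_lower' hr S β)
  simp only [h2]

theorem pt_sub' (b b' : ℕ → κ → ℝ) (k : ℕ) (s : ℕ → ℕ) :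
    pt (evr p) b k s - pt (evr p) b' k s = pt (evr p) (fun j c => b j c - b' j c) k s := by
  unfold pt evr
  rw [← Finset.sum_sub_distrib]
  refine Finset.sum_congr rfl fun j _ => ?_
  rw [← Finset.sum_sub_distrib]
  refine Finset.sum_congr rfl fun c _ => ?_
  rw [sub_smul]

end General

section Bounds

variable {K M : ℕ} [NeZero K] [NeZero M]

theorem window_bound' (hr : 2 < p.toReal) (lam : ℝ) (L : ℕ) (hlam : lam ^ 2 * L = 1 / 40)
    (y : Fin M → ZMod K) (i s : ℕ)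
    (hs : s ≤ L) (l : ℕ → ℕ) (hl : Set.InjOn l (range s : Set ℕ)) :
    ‖pt (evr p) (fun j => word lam y (j + i)) s l‖ ≤ Bd p.toReal := by
  refine pt_upper' hr _ s l hl fun c => ?_
  calc ∑ j ∈ range s, (word lam y (j + i) c) ^ 2 ≤ ∑ _j ∈ range s, lam ^ 2 :=
        Finset.sum_le_sum fun j _ => letter_sq_le lam _ c
    _ = s * lam ^ 2 := by rw [Finset.sum_const, card_range, nsmul_eq_mul]
    _ ≤ L * lam ^ 2 := by
        refine mul_le_mul_of_nonneg_right ?_ (sq_nonneg _)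
        exact_mod_cast hs
    _ ≤ 1 := by linarith

theorem single_bound' (hr : 2 < p.toReal) (lam : ℝ) (L : ℕ) (hlam : lam ^ 2 * L = 1 / 40)
    (y : Fin M → ZMod K) (j n : ℕ) :
    ‖evr p n (word lam y j)‖ ≤ Bd p.toReal := by
  have hL : 1 ≤ L := by
    rcases Nat.eq_zero_or_pos L with h | h
    · rw [h] at hlam; norm_num at hlam
    · exact h
  have h := window_bound' hr lam L hlam y j 1 hL (fun _ => n)
    (by intro a ha b hb _; simp at ha hb; omega)
  simpa only [pt, range_one, sum_singleton, zero_add] using h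

theorem close_bound' (hr : 2 < p.toReal) (lam : ℝ) (L : ℕ) (hlam : lam ^ 2 * L = 1 / 40)
    (q q' : ℕ → Fin M → ZMod K)
    (h : ∀ j c, Close (q j c) (q' j c)) (l : ℕ → ℕ)
    (hl : Set.InjOn l (range (K ^ 2 * L) : Set ℕ)) :
    ‖pt (evr p) (fun j => letter lam (q j)) (K ^ 2 * L) l -
      pt (evr p) (fun j => letter lam (q' j)) (K ^ 2 * L) l‖ ≤ Bd p.toReal := by
  have hK : (0 : ℝ) < K := by
    exact_mod_cast Nat.pos_of_ne_zero (NeZero.ne K)
  rw [pt_sub']
  refine pt_upper' hr _ _ l hl fun c => ?_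
  calc ∑ j ∈ range (K ^ 2 * L), (letter lam (q j) c - letter lam (q' j) c) ^ 2 ≤
        ∑ _j ∈ range (K ^ 2 * L), lam ^ 2 * (2 * Real.pi / K) ^ 2 :=
        Finset.sum_le_sum fun j _ => letter_diff_sq_le lam _ _ c (h j c.1)
    _ = (lam ^ 2 * L) * (2 * Real.pi) ^ 2 := by
        rw [Finset.sum_const, card_range, nsmul_eq_mul]
        push_cast
        field_simp
    _ = (2 * Real.pi) ^ 2 / 40 := by rw [hlam]; ring
    _ ≤ 1 := by
        have h1 := Real.pi_lt_d2
        have h2 := Real.pi_pos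
        rw [div_le_one (by norm_num)]
        nlinarith

theorem long_bound' (hr : 2 < p.toReal) (lam : ℝ) (L : ℕ) (hlam : lam ^ 2 * L = 1 / 40)
    (y : Fin M → ZMod K) (c : Fin M)
    (k : ℕ) (hk : K = 2 * k) (l : ℕ → ℕ) (hl : Set.InjOn l (range (K ^ 2 * L) : Set ℕ)) :
    ((K : ℝ) ^ 2 / 20) ^ (p.toReal / 2) / (2 * M) ≤
      ‖pt (evr p) (word lam (y + k • (Pi.single c (1 : ZMod K) : Fin M → ZMod K)))
      (K ^ 2 * L) l - pt (evr p) (word lam y) (K ^ 2 * L) l‖ ^ p.toReal := by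
  have hM : (0 : ℝ) < M := by
    exact_mod_cast Nat.pos_of_ne_zero (NeZero.ne M)
  rw [pt_sub']
  refine le_trans ?_ (pt_lower' hr _ _ l hl)
  have hcard : Fintype.card (Fin M × Bool) = M * 2 := by simp
  rw [hcard]
  set β : ℕ → Fin M × Bool → ℝ := fun j c' =>
    word lam (y + k • (Pi.single c (1 : ZMod K) : Fin M → ZMod K)) j c' - word lam y j c' with hβ
  have hβ2 : ∀ j i, β j (c, i) = -2 * lam * rp2 i (chi (phase y j c)) := by
    intro j i
    simp only [hβ, word, letter]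
    have h1 : phase (y + k • (Pi.single c (1 : ZMod K) : Fin M → ZMod K)) j c =
        phase y j c + (k : ZMod K) := by
      have h2 : (k • (Pi.single c (1 : ZMod K) : Fin M → ZMod K)) c = (k : ZMod K) := by
        rw [Pi.smul_apply, Pi.single_eq_same, nsmul_eq_mul, mul_one]
      simp only [phase, Pi.add_apply, h2]
      ring
    rw [h1, chi_half hk, rp2_neg]
    ring
  have hsum : (∑ j ∈ range (K ^ 2 * L), (β j (c, true)) ^ 2) +
      (∑ j ∈ range (K ^ 2 * L), (β j (c, false)) ^ 2) = (K : ℝ) ^ 2 / 10 := by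
    rw [← Finset.sum_add_distrib]
    have h1 : ∀ j ∈ range (K ^ 2 * L), (β j (c, true)) ^ 2 + (β j (c, false)) ^ 2 =
        4 * lam ^ 2 := by
      intro j _
      rw [hβ2, hβ2]
      have h2 := rp2_sum (chi (phase y j c))
      rw [chi_norm] at h2
      nlinarith
    rw [Finset.sum_congr rfl h1, Finset.sum_const, card_range, nsmul_eq_mul]
    push_cast
    calc (K : ℝ) ^ 2 * L * (4 * lam ^ 2) = 4 * (K : ℝ) ^ 2 * (lam ^ 2 * L) := by ring
      _ = _ := by rw [hlam]; ring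
  set a := ∑ j ∈ range (K ^ 2 * L), (β j (c, true)) ^ 2 with ha
  set b := ∑ j ∈ range (K ^ 2 * L), (β j (c, false)) ^ 2 with hb
  have hr2 : 0 ≤ p.toReal / 2 := by linarith
  have hterm : ∀ c' : Fin M × Bool,
      0 ≤ (∑ j ∈ range (K ^ 2 * L), (β j c') ^ 2) ^ (p.toReal / 2) := fun c' =>
    Real.rpow_nonneg (Finset.sum_nonneg fun _ _ => sq_nonneg _) _
  have hle : ((K : ℝ) ^ 2 / 20) ^ (p.toReal / 2) ≤
      ∑ c' : Fin M × Bool, (∑ j ∈ range (K ^ 2 * L), (β j c') ^ 2) ^ (p.toReal / 2) := by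
    rcases le_total a b with h | h
    · have h1 : (K : ℝ) ^ 2 / 20 ≤ b := by linarith
      refine (Real.rpow_le_rpow (by positivity) h1 hr2).trans ?_
      exact Finset.single_le_sum
        (f := fun c' : Fin M × Bool => (∑ j ∈ range (K ^ 2 * L), (β j c') ^ 2) ^ (p.toReal / 2))
        (fun c' _ => hterm c') (mem_univ (c, false))
    · have h1 : (K : ℝ) ^ 2 / 20 ≤ a := by linarith
      refine (Real.rpow_le_rpow (by positivity) h1 hr2).trans ?_
      exact Finset.single_le_sum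
        (f := fun c' : Fin M × Bool => (∑ j ∈ range (K ^ 2 * L), (β j c') ^ 2) ^ (p.toReal / 2))
        (fun c' _ => hterm c') (mem_univ (c, true))
  have hinv : (0 : ℝ) ≤ (((M * 2 : ℕ)) : ℝ)⁻¹ := by positivity
  calc ((K : ℝ) ^ 2 / 20) ^ (p.toReal / 2) / (2 * M) =
        (((M * 2 : ℕ)) : ℝ)⁻¹ * ((K : ℝ) ^ 2 / 20) ^ (p.toReal / 2) := by
        push_cast
        field_simp
    _ ≤ _ := mul_le_mul_of_nonneg_left hle hinv

end Bounds

end Pool.Agent.LqAll
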