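import Mathlib
import Pool.Agent.LqAll.Words
import Pool.Agent.LqAll.Iter

set_option autoImplicit false
set_option linter.unusedSectionVars false

/-!
The main estimate: a map from `L_p[0,1]` to `ℓ_p`, `2 < p < ∞`, which moves points at distance at
most `D` by at most `C` maps some pairs of points arbitrarily far apart to pairs at distance at
most `3 C`.
-/

namespace Pool.Agent.LqAll

open Finset MeasureTheory Filter Topology
open Pool.Agent.LqEmb (V ev_inj pt letter word phase Close phase_shift exists_shift)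

theorem add_rpow_le {r : ℝ} (hr : 0 ≤ r) {a b : ℝ} (ha : 0 ≤ a) (hb : 0 ≤ b) :
    (a + b) ^ r ≤ 2 ^ r * (a ^ r + b ^ r) := by
  have pa : 0 ≤ a ^ r := Real.rpow_nonneg ha _
  have pb : 0 ≤ b ^ r := Real.rpow_nonneg hb _
  have h2 : (0 : ℝ) ≤ 2 ^ r := Real.rpow_nonneg zero_le_two _
  rcases le_total a b with h | h
  · have h1 : (a + b) ^ r ≤ (2 * b) ^ r := Real.rpow_le_rpow (by positivity) (by linarith) hr
    rw [Real.mul_rpow zero_le_two hb] at h1
    refine h1.trans (mul_le_mul_of_nonneg_left ?_ h2)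
    linarith
  · have h1 : (a + b) ^ r ≤ (2 * a) ^ r := Real.rpow_le_rpow (by positivity) (by linarith) hr
    rw [Real.mul_rpow zero_le_two ha] at h1
    refine h1.trans (mul_le_mul_of_nonneg_left ?_ h2)
    linarith

variable {p : ENNReal} [Fact (1 ≤ p)]

theorem core_param' (hr : 2 < p.toReal) (f : Xr p → Lr p) (C : ℝ) (hC : 0 < C)
    (hf : ∀ x y, ‖x - y‖ ≤ 2 * Bd p.toReal → ‖f x - f y‖ ≤ C) (K M k : ℕ) [NeZero K] [NeZero M]
    (hk : K = 2 * k) (η : ℝ) (hη : 0 < η)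
    (hQ : Ar p.toReal * (k : ℝ) ^ 2 * (η ^ (2 - p.toReal) + η ^ 2 *
      (2 * (2 ^ p.toReal * ((K : ℝ) ^ 2 + 1 + 3 ^ p.toReal)))) ≤ M) :
    ∃ x y : Xr p, ((K : ℝ) ^ 2 / 20) ^ (p.toReal / 2) / (2 * M) ≤ ‖x - y‖ ^ p.toReal ∧
      ‖f x - f y‖ ≤ 3 * C := by
  classical
  set r : ℝ := p.toReal with hrdef
  have hr0 : 0 < r := by linarith
  have hBd := Bd_pos r
  have hKpos : 0 < K := Nat.pos_of_ne_zero (NeZero.ne K)
  set L : ℕ := K ^ M with hL
  have hLpos : 0 < L := pow_pos hKpos M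
  set lam : ℝ := 1 / Real.sqrt (40 * L) with hlamdef
  have hlam : lam ^ 2 * L = 1 / 40 := by
    have h1 : (0 : ℝ) < L := by exact_mod_cast hLpos
    rw [hlamdef, div_pow, Real.sq_sqrt (by positivity), one_pow]
    field_simp
  -- words
  set b : (Fin M → ZMod K) → ℕ → Fin M × Bool → ℝ := fun y => word lam y with hb
  have hsmall : ∀ y j n, ‖evr p n (b y j)‖ ≤ 2 * Bd r := fun y j n => by
    have := single_bound' hr lam L hlam y j n
    linarith
  have hwin : ∀ y i s, s ≤ L → ∀ᶠ l in (V s : Filter (ℕ → ℕ)),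
      ‖pt (evr p) (fun j => b y (j + i)) s l‖ ≤ Bd r := by
    intro y i s hs
    filter_upwards [ev_inj s] with l hl
    exact window_bound' hr lam L hlam y i s hs l hl
  -- the iterated limits are close to each other
  have hmove : ∀ y y', ‖F (evr p) f (b y) (K ^ 2 * L) 0 - F (evr p) f (b y') (K ^ 2 * L) 0‖ ≤
      3 * C := by
    intro y y'
    obtain ⟨s, hsL, hs⟩ := exists_shift y y'
    refine F_move hr hf hC.le (b y) (b y') (hsmall y) (hsmall y') (K ^ 2 * L) s 0 ?_ ?_ ?_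
    · filter_upwards [hwin y (K ^ 2 * L) s hsL.le] with l hl
      linarith
    · have h1 : ∀ᶠ l in (V s : Filter (ℕ → ℕ)), ‖pt (evr p) (b y) s l‖ ≤ Bd r :=
        hwin y 0 s hsL.le
      filter_upwards [h1] with l hl
      linarith
    · filter_upwards [ev_inj (K ^ 2 * L)] with l hl
      have h1 := close_bound' hr lam L hlam (fun j => phase y (j + s)) (fun j => phase y' j) (by
        intro j c
        have h2 := phase_shift y j s c
        have h3 : (fun c => y c + ((s / K ^ (c : ℕ) : ℕ) : ZMod K)) = y' := funext hs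
        rw [h3] at h2
        exact h2) l hl
      have h4 : (fun j => letter lam ((fun j => phase y' j) j)) = b y' := rfl
      have h5 : (fun j => letter lam ((fun j => phase y (j + s)) j)) = fun i => b y (i + s) := rfl
      rw [h4, h5] at h1
      linarith
  -- choice of indices
  have hconc : ∀ᶠ l in (V (K ^ 2 * L) : Filter (ℕ → ℕ)), ∀ y : Fin M → ZMod K,
      ‖f (0 + pt (evr p) (b y) (K ^ 2 * L) l) - F (evr p) f (b y) (K ^ 2 * L) 0‖ ^ r ≤
        ((K ^ 2 : ℕ) : ℝ) * C ^ r + C ^ r := by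
    rw [Filter.eventually_all]
    intro y
    refine conc hr hf hC.le L (K ^ 2) (b y) (hsmall y) (fun i => ?_) 0 (C ^ r)
      (Real.rpow_pos_of_pos hC r)
    have := hwin y i L le_rfl
    filter_upwards [this] with l hl
    linarith
  obtain ⟨l, hl1, hl2⟩ := (hconc.and (ev_inj (K ^ 2 * L))).exists
  set u : (Fin M → ZMod K) → Lr p := fun y => f (0 + pt (evr p) (b y) (K ^ 2 * L) l) with hu
  set v : Lr p := F (evr p) f (b 0) (K ^ 2 * L) 0 with hv
  have h1 : ∀ y, ∀ B : Finset (Fin M),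
      ‖u (y + ∑ c ∈ B, (Pi.single c (1 : ZMod K) : Fin M → ZMod K)) - u y‖ ≤ C := by
    intro y B
    apply hf
    rw [add_sub_add_left_eq_sub]
    have h3 := close_bound' hr lam L hlam
      (fun j => phase (y + ∑ c ∈ B, (Pi.single c (1 : ZMod K) : Fin M → ZMod K)) j)
      (fun j => phase y j) (by
        intro j c
        have h4 : (∑ c' ∈ B, (Pi.single c' (1 : ZMod K) : Fin M → ZMod K)) c =
            if c ∈ B then 1 else 0 := by
          rw [Finset.sum_apply, Finset.sum_pi_single]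
        simp only [phase, Pi.add_apply, h4]
        split_ifs
        · right; left
          ring
        · left
          ring) l hl2
    refine h3.trans ?_
    linarith
  set D' : ℝ := 2 ^ r * (((K : ℝ) ^ 2 + 1) * C ^ r + 3 ^ r * C ^ r) with hD'
  have h2 : ∀ y, ‖u y - v‖ ^ r ≤ D' := by
    intro y
    have h3 := hl1 y
    have h4 := hmove y 0
    set a : ℝ := ‖f (0 + pt (evr p) (b y) (K ^ 2 * L) l) - F (evr p) f (b y) (K ^ 2 * L) 0‖
      with ha
    have ha0 : 0 ≤ a := norm_nonneg _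
    have h5 : ‖u y - v‖ ≤ a + 3 * C := by
      have : u y - v = (f (0 + pt (evr p) (b y) (K ^ 2 * L) l) -
          F (evr p) f (b y) (K ^ 2 * L) 0) +
          (F (evr p) f (b y) (K ^ 2 * L) 0 - F (evr p) f (b 0) (K ^ 2 * L) 0) := by
        rw [hu, hv]
        simp only []
        abel
      rw [this]
      refine (norm_add_le _ _).trans ?_
      linarith
    have h6 : ‖u y - v‖ ^ r ≤ (a + 3 * C) ^ r := Real.rpow_le_rpow (norm_nonneg _) h5 hr0.le
    have h7 := add_rpow_le hr0.le ha0 (by positivity : 0 ≤ 3 * C)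
    rw [Real.mul_rpow (by norm_num : (0 : ℝ) ≤ 3) hC.le] at h7
    refine h6.trans (h7.trans ?_)
    rw [hD']
    refine mul_le_mul_of_nonneg_left ?_ (Real.rpow_nonneg zero_le_two _)
    push_cast at h3
    linarith
  have hCr : 0 < C ^ r := Real.rpow_pos_of_pos hC r
  obtain ⟨y, c, hyc⟩ := fin_ineq' hr
    (fun c : Fin M => (Pi.single c (1 : ZMod K) : Fin M → ZMod K))
    k u v C D' η hC hη h1 h2 (by
      rw [Fintype.card_fin]
      have h3 := mul_le_mul_of_nonneg_right hQ hCr.le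
      refine le_trans (le_of_eq ?_) h3
      rw [hD']
      ring)
  refine ⟨0 + pt (evr p) (b (y + k • (Pi.single c (1 : ZMod K) : Fin M → ZMod K))) (K ^ 2 * L) l,
    0 + pt (evr p) (b y) (K ^ 2 * L) l, ?_, hyc⟩
  rw [add_sub_add_left_eq_sub]
  exact long_bound' hr lam L hlam y c k hk l hl2

theorem exists_params {r : ℝ} (hr : 2 < r) {R : ℝ} (hR : 0 < R) :
    ∃ (k M : ℕ) (η : ℝ), 0 < k ∧ 0 < M ∧ 0 < η ∧
      Ar r * (k : ℝ) ^ 2 * (η ^ (2 - r) + η ^ 2 *
        (2 * (2 ^ r * (((2 * k : ℕ) : ℝ) ^ 2 + 1 + 3 ^ r)))) ≤ M ∧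
      R ^ r ≤ (((2 * k : ℕ) : ℝ) ^ 2 / 20) ^ (r / 2) / (2 * M) := by
  have hA := Ar_pos hr
  have hr0 : 0 < r := by linarith
  set c0 : ℝ := 1 / (2 * 20 ^ (r / 2) * R ^ r) with hc0
  have h20 : (0 : ℝ) < 20 ^ (r / 2) := Real.rpow_pos_of_pos (by norm_num) _
  have hRr : 0 < R ^ r := Real.rpow_pos_of_pos hR _
  have hc0p : 0 < c0 := by rw [hc0]; positivity
  set a : ℝ := (r - 2) ^ 2 / 4 with ha
  set b : ℝ := (r - 2) / 2 with hb
  have hap : 0 < a := by
    have : 0 < r - 2 := by linarith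
    positivity
  have hbp : 0 < b := by rw [hb]; linarith
  set W : ℝ := 2 * (2 ^ r * (2 + 3 ^ r)) with hW
  have h2r : (0 : ℝ) < 2 ^ r := Real.rpow_pos_of_pos two_pos _
  have h3r : (0 : ℝ) < 3 ^ r := Real.rpow_pos_of_pos (by norm_num) _
  have hWp : 0 < W := by rw [hW]; positivity
  have t1 : Tendsto (fun x : ℝ => Ar r * (x ^ (-a) + W * x ^ (-b))) atTop (𝓝 0) := by
    have e1 := tendsto_rpow_neg_atTop hap
    have e2 := (tendsto_rpow_neg_atTop hbp).const_mul W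
    have e3 := (e1.add e2).const_mul (Ar r)
    simpa using e3
  have t2 : Tendsto (fun x : ℝ => c0 * x ^ r) atTop atTop :=
    (tendsto_rpow_atTop hr0).const_mul_atTop hc0p
  have ev1 : ∀ᶠ x : ℝ in atTop, Ar r * (x ^ (-a) + W * x ^ (-b)) < c0 / 2 :=
    t1.eventually_lt_const (by linarith)
  have ev2 : ∀ᶠ x : ℝ in atTop, 2 ≤ c0 * x ^ r := t2.eventually_ge_atTop 2
  obtain ⟨X0, hX0⟩ := Filter.eventually_atTop.1 (ev1.and ev2)
  set k : ℕ := ⌈X0⌉₊ + 1 with hkdef
  set x : ℝ := ((2 * k : ℕ) : ℝ) with hx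
  have hxX : X0 ≤ x := by
    have h1 := Nat.le_ceil X0
    have h2 : ((k : ℕ) : ℝ) ≤ x := by rw [hx]; push_cast; linarith [(Nat.cast_nonneg k : (0 : ℝ) ≤ k)]
    have h3 : ((⌈X0⌉₊ : ℕ) : ℝ) ≤ k := by rw [hkdef]; push_cast; linarith
    linarith
  obtain ⟨g1, g2⟩ := hX0 x hxX
  have hk1 : 1 ≤ k := by rw [hkdef]; omega
  have hx1 : 1 ≤ x := by
    rw [hx]; push_cast
    have : (1 : ℝ) ≤ k := by exact_mod_cast hk1
    linarith
  have hxp : 0 < x := by linarith
  set M : ℕ := ⌊c0 * x ^ r⌋₊ with hM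
  have hMle : (M : ℝ) ≤ c0 * x ^ r := Nat.floor_le (by linarith)
  have hMge : c0 * x ^ r / 2 ≤ M := by
    have := Nat.lt_floor_add_one (c0 * x ^ r)
    rw [← hM] at this
    linarith
  have hMpos : 0 < M := by
    have : (0 : ℝ) < M := by linarith
    exact_mod_cast this
  set θ : ℝ := 3 / 2 - r / 4 with hθ
  refine ⟨k, M, x ^ (-θ), by omega, hMpos, Real.rpow_pos_of_pos hxp _, ?_, ?_⟩
  · -- the main inequality
    have hxr : 0 < x ^ r := Real.rpow_pos_of_pos hxp _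
    have e1 : x ^ 2 * (x ^ (-θ)) ^ (2 - r) = x ^ r * x ^ (-a) := by
      rw [← Real.rpow_mul hxp.le, ← Real.rpow_add hxp, ← Real.rpow_natCast, ← Real.rpow_add hxp]
      congr 1
      rw [hθ, ha]; push_cast; ring
    have e2 : x ^ 2 * ((x ^ (-θ)) ^ 2 * x ^ 2) = x ^ r * x ^ (-b) := by
      have h1 : (x ^ (-θ)) ^ 2 = x ^ (-θ * 2) := by
        rw [Real.rpow_mul hxp.le]
        rw [show (2 : ℝ) = ((2 : ℕ) : ℝ) by norm_num, Real.rpow_natCast]
      have h2 : x ^ 2 = x ^ (2 : ℝ) := by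
        rw [show (2 : ℝ) = ((2 : ℕ) : ℝ) by norm_num, Real.rpow_natCast]
      rw [h1, h2, ← Real.rpow_add hxp, ← Real.rpow_add hxp, ← Real.rpow_add hxp]
      congr 1
      rw [hθ, hb]; ring
    have hkx : (k : ℝ) ^ 2 ≤ x ^ 2 := by
      have h0 : (0 : ℝ) ≤ k := Nat.cast_nonneg k
      refine pow_le_pow_left₀ h0 ?_ 2
      rw [hx]; push_cast; linarith
    have hηp : 0 < x ^ (-θ) := Real.rpow_pos_of_pos hxp _
    have hin : 2 * (2 ^ r * (x ^ 2 + 1 + 3 ^ r)) ≤ W * x ^ 2 := by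
      rw [hW]
      have h1 : 1 ≤ x ^ 2 := one_le_pow₀ hx1
      have h2 : x ^ 2 + 1 + 3 ^ r ≤ (2 + 3 ^ r) * x ^ 2 := by nlinarith
      have h3 : 2 ^ r * (x ^ 2 + 1 + 3 ^ r) ≤ 2 ^ r * ((2 + 3 ^ r) * x ^ 2) :=
        mul_le_mul_of_nonneg_left h2 h2r.le
      linarith
    calc Ar r * (k : ℝ) ^ 2 * ((x ^ (-θ)) ^ (2 - r) + (x ^ (-θ)) ^ 2 *
          (2 * (2 ^ r * (x ^ 2 + 1 + 3 ^ r))))
        ≤ Ar r * x ^ 2 * ((x ^ (-θ)) ^ (2 - r) + (x ^ (-θ)) ^ 2 * (W * x ^ 2)) := by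
          refine mul_le_mul (mul_le_mul_of_nonneg_left hkx hA.le) ?_ ?_ (by positivity)
          · refine add_le_add le_rfl (mul_le_mul_of_nonneg_left hin (sq_nonneg _))
          · have : 0 ≤ (x ^ (-θ)) ^ (2 - r) := Real.rpow_nonneg hηp.le _
            positivity
      _ = Ar r * (x ^ 2 * (x ^ (-θ)) ^ (2 - r) + W * (x ^ 2 * ((x ^ (-θ)) ^ 2 * x ^ 2))) := by
          ring
      _ = x ^ r * (Ar r * (x ^ (-a) + W * x ^ (-b))) := by rw [e1, e2]; ring
      _ ≤ x ^ r * (c0 / 2) := mul_le_mul_of_nonneg_left g1.le hxr.le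
      _ = c0 * x ^ r / 2 := by ring
      _ ≤ M := hMge
  · -- the distance
    have hM0 : (0 : ℝ) < M := by exact_mod_cast hMpos
    have hxr : 0 < x ^ r := Real.rpow_pos_of_pos hxp _
    rw [le_div_iff₀ (by positivity)]
    have e1 : (x ^ 2 / 20) ^ (r / 2) = x ^ r / 20 ^ (r / 2) := by
      rw [Real.div_rpow (by positivity) (by norm_num), ← Real.rpow_natCast, ← Real.rpow_mul hxp.le]
      congr 2; push_cast; ring
    rw [e1]
    have h1 : R ^ r * (2 * M) ≤ R ^ r * (2 * (c0 * x ^ r)) := by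
      refine mul_le_mul_of_nonneg_left ?_ hRr.le
      linarith
    refine h1.trans (le_of_eq ?_)
    rw [hc0]
    field_simp

/-- The main estimate. -/
theorem core' (hr : 2 < p.toReal) (f : Xr p → Lr p) (C : ℝ) (hC : 0 < C)
    (hf : ∀ x y, ‖x - y‖ ≤ 2 * Bd p.toReal → ‖f x - f y‖ ≤ C) (R : ℝ) (hR : 0 < R) :
    ∃ x y : Xr p, R ≤ ‖x - y‖ ∧ ‖f x - f y‖ ≤ 3 * C := by
  obtain ⟨k, M, η, hk, hM, hη, h1, h2⟩ := exists_params hr hR
  have : NeZero (2 * k) := ⟨by omega⟩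
  have : NeZero M := ⟨by omega⟩
  obtain ⟨x, y, h3, h4⟩ := core_param' hr f C hC hf (2 * k) M k rfl η hη h1
  refine ⟨x, y, ?_, h4⟩
  exact (Real.rpow_le_rpow_iff hR.le (norm_nonneg _) (by linarith : 0 < p.toReal)).1 (h2.trans h3)

end Pool.Agent.LqAll
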